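import Pool.Agent.W684.BMA.Few2

/-!
# The forcing theorem
-/

set_option autoImplicit false
set_option linter.unusedSectionVars false
set_option linter.deprecated false

namespace Pool.Agent.W684.BMA

open Classical Cardinal Pool.Agent.Helper669.Forcing

variable {K I : Type} [LinearOrder I] [WellFoundedLT I] {Γ : Par K I}

theorem allCapturedN [Infinite K] (hΓ : Full Γ) (hI : FM.Bdd K I)
    (hA : ∀ (x : Nm K I) (β δ : I), Supp (Set.Iio δ) x → ∃ j, β ≤ j ∧ Γ.A j = x)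
    (p : PP Γ) : p ∈ AllCapturedN (PP Γ) K := by
  intro x A
  refine mem_fimp.2 fun q _ hq => ⟨q, le_rfl, ?_⟩
  obtain ⟨a, ha⟩ := exists_raw_name A
  have ha' : Rep Γ a A := ha
  choose X hX using fun k => exists_raw_name (x k)
  obtain ⟨δ, hδ⟩ := exists_supp hI (J := Option K) (by
    rw [Cardinal.mk_option]
    calc #K + 1 ≤ #K + #K := add_le_add le_rfl
          (Cardinal.one_le_aleph0.trans (Cardinal.aleph0_le_mk K))
      _ = #K := Cardinal.add_eq_self (Cardinal.aleph0_le_mk K)) fun k => k.elim a X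
  obtain ⟨j, hj, hjA⟩ := hA a δ δ (hδ δ le_rfl none)
  have hrep : Rep Γ (Γ.A j) A := hjA ▸ ha'
  have hs : Supp (Set.Iio j) (Γ.A j) := hjA ▸ hδ j hj none
  refine mem_fex_of_mem (genB Γ j) (down_fex _) ?_
  refine mem_fex_of_mem (genY Γ j) (down_fand (down_InfN _)
    (down_fall fun _ => down_CapturedN _ _ _ _)) ⟨infN_genB hrep hs hq, fun k => ?_⟩
  have hk : Supp (Set.Iio j) (X k) := hδ j hj (some k)
  obtain ⟨k', hk'⟩ := hΓ j (X k) hk
  have hXk : Rep Γ (X k) (x k) := hX k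
  exact captured_gen hrep hs hq (hk' ▸ hXk) (hk' ▸ hk)

/-- The combinatorial sentence is forced by all conditions of some preorder. -/
theorem exists_forcing : ∃ (K L P : Type) (_ : LinearOrder L) (_ : WellFoundedLT L)
    (_ : Preorder P), Infinite K ∧ (∀ l : L, Nonempty (Set.Iio l ↪ K)) ∧ FM.PCCC P ∧
      Nonempty P ∧ ∀ p : P, p ∈ PhiHolds P K L := by
  have hc : #(ℕ → ℕ) = 𝔠 := by simp
  have hK : #(ℕ → ℕ) ^ ℵ₀ = #(ℕ → ℕ) := by
    rw [hc]
    exact Cardinal.continuum_power_aleph0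
  obtain ⟨Γ, hΓ, hA⟩ := exists_par (ℕ → ℕ) hK
  have hI := FM.bdd_succ (ℕ → ℕ)
  have hIio : ∀ δ : (Order.succ #(ℕ → ℕ)).ord.ToType, #(Set.Iio δ) ≤ #(ℕ → ℕ) := fun δ =>
    Order.lt_succ_iff.1 (Cardinal.mk_Iio_toType_ord_lt δ)
  have hI' : #((Order.succ #(ℕ → ℕ)).ord.ToType) = Order.succ #(ℕ → ℕ) := by
    rw [Cardinal.mk_ord_toType]
  have hne : Nonempty (Order.succ #(ℕ → ℕ)).ord.ToType := by
    rw [← Cardinal.mk_ne_zero_iff, hI']
    exact (Order.succ_ne_bot _)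
  refine ⟨ℕ → ℕ, (Order.succ #(ℕ → ℕ)).ord.ToType, PP Γ, inferInstance, inferInstance,
    inferInstance, inferInstance, fun l => hIio l, pccc, ⟨(Cond.one : Cond _ _)⟩, fun p => ?_⟩
  refine ⟨unboundedN hΓ id Function.surjective_id p, allCapturedN hΓ hI hA p,
    fewCapturedN hΓ hI hIio hK ?_ ?_ p⟩
  · rw [hc]
    exact Cardinal.aleph_one_le_continuum
  · rw [hI']
    exact Order.lt_succ _

end Pool.Agent.W684.BMA
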