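import Mathlib

/-!
# The iteration: conditions, and their order
-/

set_option autoImplicit false
set_option linter.unusedSectionVars false

namespace Pool.Agent.W684.BMA

open Classical

/-- the part of a condition at one coordinate: a finite sequence of blocks of bits, and finitely
many promises -/
structure CV (K : Type) : Type where
  stem : List (List Bool)
  pr : List K

variable {K I : Type}

/-- the trivial part -/
def CV.top : CV K := ⟨[], []⟩

@[simp] theorem CV.top_stem : (CV.top : CV K).stem = [] := rfl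
@[simp] theorem CV.top_pr : (CV.top : CV K).pr = [] := rfl

/-- conditions -/
def Cond (K I : Type) : Type := {f : I → CV K // {i | f i ≠ CV.top}.Finite}

instance : CoeFun (Cond K I) fun _ => I → CV K := ⟨Subtype.val⟩

theorem Cond.ext' {p q : Cond K I} (h : ∀ i, p i = q i) : p = q := Subtype.ext (funext h)

/-- the trivial condition -/
def Cond.one : Cond K I := ⟨fun _ => CV.top, by simp⟩

@[simp] theorem Cond.one_apply (i : I) : (Cond.one : Cond K I) i = CV.top := rfl

/-- `q` on `T`, and `p` elsewhere -/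
noncomputable def mix (T : Set I) (q p : Cond K I) : Cond K I :=
  ⟨fun i => if i ∈ T then q i else p i, (q.2.union p.2).subset (by
    intro i hi
    simp only [Set.mem_ofPred_eq] at hi
    by_cases h : i ∈ T
    · rw [if_pos h] at hi
      exact Or.inl hi
    · rw [if_neg h] at hi
      exact Or.inr hi)⟩

theorem mix_mem {T : Set I} (q p : Cond K I) {i : I} (h : i ∈ T) : mix T q p i = q i := if_pos h

theorem mix_notMem {T : Set I} (q p : Cond K I) {i : I} (h : i ∉ T) : mix T q p i = p i :=
  if_neg h

@[simp] theorem mix_self (T : Set I) (p : Cond K I) : mix T p p = p :=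
  Cond.ext' fun i => by
    by_cases h : i ∈ T
    · rw [mix_mem _ _ h]
    · rw [mix_notMem _ _ h]

/-- change of one coordinate -/
noncomputable def upd (p : Cond K I) (j : I) (v : CV K) : Cond K I :=
  ⟨fun i => if i = j then v else p i, (p.2.union (Set.finite_singleton j)).subset (by
    intro i hi
    by_cases h : i = j
    · exact Or.inr h
    · simp only [Set.mem_ofPred_eq, if_neg h] at hi
      exact Or.inl hi)⟩

@[simp] theorem upd_same (p : Cond K I) (j : I) (v : CV K) : upd p j v j = v := if_pos rfl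

theorem upd_of_ne (p : Cond K I) {i j : I} (v : CV K) (h : i ≠ j) : upd p j v i = p i := if_neg h

/-! ### Stems -/

/-- start of the `k`-th block -/
def off (s : List (List Bool)) (k : ℕ) : ℕ := (s.take k).flatten.length

/-- total length -/
def len (s : List (List Bool)) : ℕ := s.flatten.length

/-- the bits -/
def bits (s : List (List Bool)) (n : ℕ) : Bool := s.flatten.getD n false

theorem off_length (s : List (List Bool)) : off s s.length = len s := by
  rw [off, len, List.take_length]

theorem off_le_len (s : List (List Bool)) (k : ℕ) : off s k ≤ len s := by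
  rw [off, len]
  conv_rhs => rw [← List.take_append_drop k s]
  rw [List.flatten_append, List.length_append]
  exact Nat.le_add_right _ _

theorem off_mono (s : List (List Bool)) {k l : ℕ} (h : k ≤ l) : off s k ≤ off s l := by
  rw [off, off]
  have : s.take k = (s.take l).take k := by rw [List.take_take, min_eq_left h]
  rw [this]
  conv_rhs => rw [← List.take_append_drop k (s.take l)]
  rw [List.flatten_append, List.length_append]
  exact Nat.le_add_right _ _

theorem off_prefix {s s' : List (List Bool)} (h : s <+: s') {k : ℕ} (hk : k ≤ s.length) :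
    off s' k = off s k := by
  obtain ⟨r, rfl⟩ := h
  rw [off, off, List.take_append_of_le_length hk]

theorem len_prefix {s s' : List (List Bool)} (h : s <+: s') : len s ≤ len s' := by
  obtain ⟨r, rfl⟩ := h
  rw [len, len, List.flatten_append, List.length_append]
  exact Nat.le_add_right _ _

theorem bits_prefix {s s' : List (List Bool)} (h : s <+: s') {n : ℕ} (hn : n < len s) :
    bits s' n = bits s n := by
  obtain ⟨r, rfl⟩ := h
  rw [bits, bits, List.flatten_append]
  exact List.getD_append _ _ _ _ hn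

/-- the block `[b, b')` contains an interval of the partition `α` on which `ξ` agrees with `y` -/
def cap (α ξ : ℕ → Bool) (b b' : ℕ) (y : ℕ → Bool) : Prop :=
  ∃ a a', b ≤ a ∧ a < a' ∧ a' ≤ b' ∧ α a = true ∧ α a' = true ∧
    (∀ c, a < c → c < a' → α c = false) ∧ ∀ n, a ≤ n → n < a' → ξ n = y n

theorem cap_congr {α ξ α' ξ' : ℕ → Bool} {b b' : ℕ} {y y' : ℕ → Bool}
    (hα : ∀ n ≤ b', α n = α' n) (hξ : ∀ n ≤ b', ξ n = ξ' n) (hy : ∀ n < b', y n = y' n)
    (h : cap α ξ b b' y) : cap α' ξ' b b' y' := by
  obtain ⟨a, a', h1, h2, h3, h4, h5, h6, h7⟩ := h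
  refine ⟨a, a', h1, h2, h3, ?_, ?_, ?_, ?_⟩
  · rw [← hα a (by omega), h4]
  · rw [← hα a' (by omega), h5]
  · intro c hc hc'
    rw [← hα c (by omega), h6 c hc hc']
  · intro n hn hn'
    rw [← hξ n (by omega), ← hy n (by omega), h7 n hn hn']

/-- all the blocks of `s'` from number `m` on are fine -/
def newOK (α ξ : ℕ → Bool) (m : ℕ) (s' : List (List Bool)) : Prop :=
  ∀ k, m ≤ k → k < s'.length → cap α ξ (off s' k) (off s' (k + 1)) (bits s')

theorem newOK_congr {α ξ α' ξ' : ℕ → Bool} {m : ℕ} {s' : List (List Bool)}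
    (hα : ∀ n ≤ len s', α n = α' n) (hξ : ∀ n ≤ len s', ξ n = ξ' n) (h : newOK α ξ m s') :
    newOK α' ξ' m s' := by
  intro k hk hk'
  have h1 := off_le_len s' (k + 1)
  exact cap_congr (fun n hn => hα n (hn.trans h1)) (fun n hn => hξ n (hn.trans h1))
    (fun _ _ => rfl) (h k hk hk')

theorem newOK_trans {α ξ : ℕ → Bool} {m : ℕ} {s' s'' : List (List Bool)} (hs : s' <+: s'')
    (h1 : newOK α ξ m s') (h2 : newOK α ξ s'.length s'') : newOK α ξ m s'' := by
  intro k hk hk'
  by_cases h : k < s'.length
  · have h3 := h1 k hk h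
    rw [off_prefix hs h.le, off_prefix hs (Nat.succ_le_of_lt h)]
    refine cap_congr (fun _ _ => rfl) (fun _ _ => rfl) (fun n hn => ?_) h3
    exact (bits_prefix hs (hn.trans_le (off_le_len s' _))).symm
  · exact h2 k (not_lt.1 h) hk'

/-! ### Names and the order -/

/-- raw names for reals -/
abbrev Nm (K I : Type) : Type := ℕ → ℕ → Option (Cond K I)

/-- the condition `t` decides that the `n`-th bit of `x` is `b` -/
def Bit (R : Cond K I → Cond K I → Prop) (t : Cond K I) (x : Nm K I) (n : ℕ) (b : Bool) : Prop :=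
  if b = true then ∃ m u, x n m = some u ∧ R t u
  else ∀ t', R t' t → ∀ m u, x n m = some u → ¬ R t' u

/-- the requirement at one coordinate -/
def Req (R : Cond K I → Cond K I → Prop) (a : Nm K I) (e : K → Nm K I) (q : Cond K I)
    (v w : CV K) : Prop :=
  w.stem <+: v.stem ∧ w.pr ⊆ v.pr ∧ ∀ k ∈ w.pr, ∀ t, R t q → ∀ α ξ : ℕ → Bool,
    (∀ n ≤ len v.stem, Bit R t a n (α n)) → (∀ n ≤ len v.stem, Bit R t (e k) n (ξ n)) →
      newOK α ξ w.stem.length v.stem

/-- the parameters of the iteration -/
structure Par (K I : Type) where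
  A : I → Nm K I
  e : I → K → Nm K I

variable [LinearOrder I] [WellFoundedLT I]

/-- the relation at the coordinate `j` -/
noncomputable def ext (Γ : Par K I) : I → Cond K I → Cond K I → Prop :=
  WellFounded.fix (wellFounded_lt (α := I)) fun j rec q p =>
    Req (fun q p => ∀ i, ∀ h : i < j, rec i h q p) (Γ.A j) (Γ.e j) q (q j) (p j)

/-- `q` is stronger than `p` on the coordinates in `T` -/
def le (Γ : Par K I) (T : Set I) (q p : Cond K I) : Prop := ∀ j ∈ T, ext Γ j q p

variable {Γ : Par K I}

theorem ext_iff {j : I} {q p : Cond K I} :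
    ext Γ j q p ↔ Req (le Γ (Set.Iio j)) (Γ.A j) (Γ.e j) q (q j) (p j) := by
  conv_lhs => rw [ext, WellFounded.fix_eq]
  rfl

theorem le_mono {S T : Set I} (h : S ⊆ T) {q p : Cond K I} (hqp : le Γ T q p) : le Γ S q p :=
  fun j hj => hqp j (h hj)

theorem ext_refl_trans (j : I) :
    (∀ p : Cond K I, ext Γ j p p) ∧
    ∀ r q p : Cond K I, le Γ (Set.Iio j) r q → ext Γ j r q → ext Γ j q p → ext Γ j r p := by
  induction j using WellFoundedLT.induction with
  | ind j ih =>
    refine ⟨fun p => ?_, fun r q p hrq h1 h2 => ?_⟩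
    · rw [ext_iff]
      refine ⟨List.prefix_refl _, List.Subset.refl _, fun k _ t _ α ξ _ _ n hn hn' => ?_⟩
      omega
    · have htrans : ∀ r q p : Cond K I, le Γ (Set.Iio j) r q → le Γ (Set.Iio j) q p →
          le Γ (Set.Iio j) r p := by
        intro r q p hrq hqp i hi
        exact (ih i hi).2 r q p (fun l hl => hrq l (lt_trans hl hi)) (hrq i hi) (hqp i hi)
      rw [ext_iff] at h1 h2 ⊢
      refine ⟨h2.1.trans h1.1, fun _ hk => h1.2.1 (h2.2.1 hk), ?_⟩
      intro k hk t ht α ξ hα hξ
      have hl := len_prefix h1.1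
      refine newOK_trans h1.1 ?_ (h1.2.2 k (h2.2.1 hk) t ht α ξ hα hξ)
      exact h2.2.2 k hk t (htrans t r q ht hrq) α ξ (fun n hn => hα n (hn.trans hl))
        (fun n hn => hξ n (hn.trans hl))

theorem ext_refl (j : I) (p : Cond K I) : ext Γ j p p := (ext_refl_trans j).1 p

theorem le_refl' (T : Set I) (p : Cond K I) : le Γ T p p := fun j _ => ext_refl j p

theorem le_trans' {T : Set I} (hT : IsLowerSet T) {r q p : Cond K I} (h1 : le Γ T r q)
    (h2 : le Γ T q p) : le Γ T r p := fun j hj =>
  (ext_refl_trans j).2 r q p (fun i hi => h1 i (hT (le_of_lt hi) hj)) (h1 j hj) (h2 j hj)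

theorem lower_Iio (j : I) : IsLowerSet (Set.Iio j) := isLowerSet_Iio j

theorem Req_congr {R : Cond K I → Cond K I → Prop} {a : Nm K I} {e : K → Nm K I}
    {q q' : Cond K I} {v w : CV K} (h : ∀ t, R t q' → R t q) (hr : Req R a e q v w) :
    Req R a e q' v w :=
  ⟨hr.1, hr.2.1, fun k hk t ht => hr.2.2 k hk t (h t ht)⟩

/-- the relation at `j` only depends on the coordinates up to `j` -/
theorem ext_congr (j : I) : ∀ {q q' p p' : Cond K I}, (∀ i ≤ j, q i = q' i) → (p j = p' j) →
    ext Γ j q p → ext Γ j q' p' := by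
  induction j using WellFoundedLT.induction with
  | ind j ih =>
    intro q q' p p' hq hp h
    rw [ext_iff] at h ⊢
    rw [← hq j le_rfl, ← hp]
    refine Req_congr (fun t ht i hi => ?_) h
    exact ih i hi (fun _ _ => rfl) (hq i (le_of_lt hi)).symm (ht i hi)

theorem le_congr {T : Set I} (hT : IsLowerSet T) {q q' p p' : Cond K I}
    (hq : ∀ i ∈ T, q i = q' i) (hp : ∀ i ∈ T, p i = p' i) (h : le Γ T q p) : le Γ T q' p' :=
  fun j hj => ext_congr j (fun i hi => hq i (hT hi hj)) (hp j hj) (h j hj)

theorem le_of_eq {T : Set I} (hT : IsLowerSet T) {q p : Cond K I} (h : ∀ i ∈ T, q i = p i) :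
    le Γ T q p := le_congr hT (fun _ _ => rfl) h (le_refl' T q)

theorem ext_same_stem {j : I} {q p : Cond K I} (h1 : (p j).stem = (q j).stem)
    (h2 : (p j).pr ⊆ (q j).pr) : ext Γ j q p := by
  rw [ext_iff]
  refine ⟨h1 ▸ List.prefix_refl _, h2, fun k _ t _ α ξ _ _ n hn hn' => ?_⟩
  rw [h1] at hn
  omega

theorem ext_top {j : I} {q p : Cond K I} (h : p j = CV.top) : ext Γ j q p := by
  rw [ext_iff, h]
  refine ⟨List.nil_prefix, List.nil_subset _, fun k hk => ?_⟩
  simp at hk

theorem ext_stem {j : I} {q p : Cond K I} (h : ext Γ j q p) : (p j).stem <+: (q j).stem := by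
  rw [ext_iff] at h
  exact h.1

theorem ext_pr {j : I} {q p : Cond K I} (h : ext Γ j q p) : (p j).pr ⊆ (q j).pr := by
  rw [ext_iff] at h
  exact h.2.1

/-- amalgamation -/
theorem mix_le {S T : Set I} (hS : IsLowerSet S) {q p : Cond K I} (h : le Γ S q p) :
    le Γ T (mix S q p) p := by
  intro j _
  by_cases hj : j ∈ S
  · exact ext_congr j (fun i hi => (mix_mem q p (hS hi hj)).symm) rfl (h j hj)
  · exact ext_same_stem (by rw [mix_notMem q p hj]) (by rw [mix_notMem q p hj]; exact fun _ h => h)

/-- replacement of the lower part -/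
theorem mix_le_mix {S T : Set I} (hS : IsLowerSet S) (hT : IsLowerSet T) {t t' c e : Cond K I}
    (ht : le Γ S t' t) (h : le Γ T (mix S t c) (mix S t e)) :
    le Γ T (mix S t' c) (mix S t' e) := by
  have h1 : le Γ T (mix S t' c) (mix S t c) := by
    have h2 : le Γ T (mix S t' (mix S t c)) (mix S t c) := by
      apply mix_le hS
      exact le_congr hS (fun _ _ => rfl) (fun i hi => (mix_mem t c hi).symm) ht
    refine le_congr hT (fun i _ => ?_) (fun _ _ => rfl) h2
    by_cases hi : i ∈ S
    · rw [mix_mem _ _ hi, mix_mem _ _ hi]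
    · rw [mix_notMem _ _ hi, mix_notMem _ _ hi, mix_notMem _ _ hi]
  have h3 := le_trans' hT h1 h
  intro j hj
  by_cases hjS : j ∈ S
  · exact ext_congr j (fun _ _ => rfl) (by rw [mix_mem _ _ hjS])
      (ext_congr j (fun i hi => (mix_mem t' c (hS hi hjS)).symm) rfl (ext_refl (Γ := Γ) j t'))
  · exact ext_congr j (fun _ _ => rfl) (by rw [mix_notMem _ _ hjS, mix_notMem _ _ hjS]) (h3 j hj)

theorem mix_mono {S T : Set I} (hS : IsLowerSet S) (hT : IsLowerSet T) {t t' c : Cond K I}
    (ht : le Γ S t' t) : le Γ T (mix S t' c) (mix S t c) := by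
  have h2 : le Γ T (mix S t' (mix S t c)) (mix S t c) := by
    apply mix_le hS
    exact le_congr hS (fun _ _ => rfl) (fun i hi => (mix_mem t c hi).symm) ht
  refine le_congr hT (fun i _ => ?_) (fun _ _ => rfl) h2
  by_cases hi : i ∈ S
  · rw [mix_mem _ _ hi, mix_mem _ _ hi]
  · rw [mix_notMem _ _ hi, mix_notMem _ _ hi, mix_notMem _ _ hi]

/-- the join of two conditions whose stems are equal on the common part of their supports -/
noncomputable def join (p q : Cond K I) : Cond K I :=
  ⟨fun i => ⟨if (q i).stem = [] then (p i).stem else (q i).stem, (p i).pr ++ (q i).pr⟩,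
    (p.2.union q.2).subset (by
      intro i hi
      by_contra hcon
      rw [Set.mem_union, not_or] at hcon
      simp only [Set.mem_ofPred_eq, not_not] at hcon
      apply hi
      obtain ⟨h1, h2⟩ := hcon
      show (⟨if (q.1 i).stem = [] then (p.1 i).stem else (q.1 i).stem,
        (p.1 i).pr ++ (q.1 i).pr⟩ : CV K) = CV.top
      rw [h1, h2]
      rfl)⟩

theorem join_stem (p q : Cond K I) (i : I) :
    (join p q i).stem = if (q i).stem = [] then (p i).stem else (q i).stem := rfl

theorem join_pr (p q : Cond K I) (i : I) : (join p q i).pr = (p i).pr ++ (q i).pr := rfl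

theorem join_le {p q : Cond K I} {T : Set I}
    (h : ∀ i, p i ≠ CV.top → q i ≠ CV.top → (p i).stem = (q i).stem) :
    le Γ T (join p q) p ∧ le Γ T (join p q) q := by
  constructor
  · intro j _
    by_cases hj : p j = CV.top
    · exact ext_top hj
    · apply ext_same_stem
      · rw [join_stem]
        by_cases hq : q j = CV.top
        · rw [if_pos (by rw [hq]; rfl)]
        · rw [h j hj hq]
          split_ifs <;> rfl
      · rw [join_pr]
        exact List.subset_append_left _ _
  · intro j _
    by_cases hj : q j = CV.top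
    · exact ext_top hj
    · apply ext_same_stem
      · rw [join_stem]
        by_cases hp : p j = CV.top
        · split_ifs with h1
          · rw [h1, hp]
            rfl
          · rfl
        · rw [h j hp hj]
          split_ifs <;> rfl
      · rw [join_pr]
        exact List.subset_append_right _ _

/-! ### Decision of bits -/

theorem Bit.mono {T : Set I} (hT : IsLowerSet T) {t t' : Cond K I} {x : Nm K I} {n : ℕ} {b : Bool}
    (h : Bit (le Γ T) t x n b) (ht : le Γ T t' t) : Bit (le Γ T) t' x n b := by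
  rw [Bit] at h ⊢
  split_ifs at h ⊢ with hb
  · obtain ⟨m, u, h1, h2⟩ := h
    exact ⟨m, u, h1, le_trans' hT ht h2⟩
  · exact fun t'' ht'' => h t'' (le_trans' hT ht'' ht)

theorem Bit.unique {T : Set I} {t : Cond K I} {x : Nm K I} {n : ℕ} {b b' : Bool}
    (h : Bit (le Γ T) t x n b) (h' : Bit (le Γ T) t x n b') : b = b' := by
  rw [Bit] at h h'
  split_ifs at h h' with hb hb'
  · rw [hb, hb']
  · obtain ⟨m, u, h1, h2⟩ := h
    exact absurd h2 (h' t (le_refl' T t) m u h1)
  · obtain ⟨m, u, h1, h2⟩ := h'
    exact absurd h2 (h t (le_refl' T t) m u h1)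
  · rw [Bool.not_eq_true] at hb
    rename_i hb'
    rw [Bool.not_eq_true] at hb'
    rw [hb, hb']

theorem Bit.dense {T : Set I} (t : Cond K I) (x : Nm K I) (n : ℕ) :
    ∃ t', le Γ T t' t ∧ ∃ b, Bit (le Γ T) t' x n b := by
  by_cases h : ∃ t', le Γ T t' t ∧ ∃ m u, x n m = some u ∧ le Γ T t' u
  · obtain ⟨t', ht', m, u, h1, h2⟩ := h
    exact ⟨t', ht', true, by rw [Bit, if_pos rfl]; exact ⟨m, u, h1, h2⟩⟩
  · refine ⟨t, le_refl' T t, false, ?_⟩
    rw [Bit, if_neg (by simp)]
    intro t' ht' m u hu hle
    exact h ⟨t', ht', m, u, hu, hle⟩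

/-- the conditions used in the name are supported in `T` -/
def Supp (T : Set I) (x : Nm K I) : Prop := ∀ n m u, x n m = some u → ∀ i ∉ T, u i = CV.top

theorem Supp.le_iff {S T : Set I} (hST : S ⊆ T) {x : Nm K I} (hx : Supp S x) {n m : ℕ}
    {u : Cond K I} (hu : x n m = some u) (t : Cond K I) : le Γ T t u ↔ le Γ S t u := by
  refine ⟨fun h => le_mono hST h, fun h j hj => ?_⟩
  by_cases hjS : j ∈ S
  · exact h j hjS
  · exact ext_top (hx n m u hu j hjS)

theorem Bit.iff_of_supp {S T : Set I} (hS : IsLowerSet S) (hST : S ⊆ T) {x : Nm K I}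
    (hx : Supp S x) {t : Cond K I} {n : ℕ} {b : Bool} :
    Bit (le Γ T) t x n b ↔ Bit (le Γ S) t x n b := by
  rw [Bit, Bit]
  split_ifs with hb
  · constructor
    · rintro ⟨m, u, hu, h⟩
      exact ⟨m, u, hu, (hx.le_iff hST hu t).1 h⟩
    · rintro ⟨m, u, hu, h⟩
      exact ⟨m, u, hu, (hx.le_iff hST hu t).2 h⟩
  · constructor
    · intro h t' ht' m u hu hle
      refine h (mix S t' t) (mix_le hS ht') m u hu ((hx.le_iff hST hu _).2 ?_)
      exact le_congr hS (fun i hi => (mix_mem t' t hi).symm) (fun _ _ => rfl) hle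
    · intro h t' ht' m u hu hle
      exact h t' (le_mono hST ht') m u hu ((hx.le_iff hST hu t').1 hle)

end Pool.Agent.W684.BMA
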