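import Pool.Agent.W684.BMA.Induct
import Pool.Agent.W684.FM.Forced

/-!
# Bookkeeping
-/

set_option autoImplicit false
set_option linter.unusedSectionVars false
set_option linter.deprecated false

namespace Pool.Agent.W684.BMA

open Classical Cardinal

theorem mk_CV (K : Type) [Infinite K] : #(CV K) ≤ #K := by
  let f : CV K → List (List Bool) × List K := fun v => (v.stem, v.pr)
  have hf : Function.Injective f := by
    rintro ⟨a, b⟩ ⟨c, d⟩ h
    simp only [f, Prod.mk.injEq] at h
    rw [h.1, h.2]
  refine (Cardinal.mk_le_of_injective hf).trans ?_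
  rw [Cardinal.mk_prod, Cardinal.lift_id, Cardinal.lift_id, Cardinal.mk_list_eq_mk K]
  calc #(List (List Bool)) * #K ≤ ℵ₀ * #K := mul_le_mul_left Cardinal.mk_le_aleph0 _
    _ = #K := Cardinal.aleph0_mul_eq (Cardinal.aleph0_le_mk K)

/-- the conditions supported in `T` -/
def CondS (K : Type) {I : Type} (T : Set I) : Type := {u : Cond K I // ∀ i ∉ T, u i = CV.top}

theorem mk_CondS {K I : Type} [Infinite K] (T : Set I) (hT : #T ≤ #K) : #(CondS K T) ≤ #K := by
  have h1 : ∀ u : CondS K T, {i : T | u.1 i.1 ≠ CV.top}.Finite := by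
    intro u
    have := u.1.2
    exact Set.Finite.preimage Subtype.val_injective.injOn this
  let f : CondS K T → Finset (T × CV K) := fun u =>
    (h1 u).toFinset.image fun i => (i, u.1 i.1)
  have hf : Function.Injective f := by
    intro u w h
    have key : ∀ u w : CondS K T, f u = f w → ∀ i : T, u.1 i.1 ≠ CV.top → w.1 i.1 = u.1 i.1 := by
      intro u w h i hi
      have h2 : (i, u.1 i.1) ∈ f u :=
        Finset.mem_image.2 ⟨i, (h1 u).mem_toFinset.2 hi, rfl⟩
      rw [h] at h2
      obtain ⟨i', _, h3⟩ := Finset.mem_image.1 h2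
      rw [Prod.mk.injEq] at h3
      obtain ⟨rfl, h4⟩ := h3
      exact h4
    apply Subtype.ext
    apply Cond.ext'
    intro i
    by_cases hi : i ∈ T
    · by_cases h2 : u.1 i = CV.top
      · by_cases h3 : w.1 i = CV.top
        · rw [h2, h3]
        · exact key w u h.symm ⟨i, hi⟩ h3
      · exact (key u w h ⟨i, hi⟩ h2).symm
    · rw [u.2 i hi, w.2 i hi]
  refine (Cardinal.mk_le_of_injective hf).trans ?_
  have h2 : #(T × CV K) ≤ #K := by
    rw [Cardinal.mk_prod, Cardinal.lift_id, Cardinal.lift_id]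
    calc #T * #(CV K) ≤ #K * #K := mul_le_mul' hT (mk_CV K)
      _ = #K := Cardinal.mul_eq_self (Cardinal.aleph0_le_mk K)
  rcases finite_or_infinite (T × CV K) with h3 | h3
  · have : Finite (Finset (T × CV K)) := inferInstance
    exact (Cardinal.lt_aleph0_of_finite _).le.trans (Cardinal.aleph0_le_mk K)
  · rw [Cardinal.mk_finset_of_infinite]
    exact h2

theorem mk_supp {K I : Type} [Infinite K] (hK : #K ^ ℵ₀ = #K) (T : Set I) (hT : #T ≤ #K) :
    #{x : Nm K I // Supp T x} ≤ #K := by
  let f : {x : Nm K I // Supp T x} → ℕ → ℕ → Option (CondS K T) := fun x n m =>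
    if h : ∃ u, x.1 n m = some u then some ⟨h.choose, x.2 n m _ h.choose_spec⟩ else none
  have hf : Function.Injective f := by
    intro x w h
    apply Subtype.ext
    funext n m
    have h1 := congrFun (congrFun h n) m
    simp only [f] at h1
    by_cases h2 : ∃ u, x.1 n m = some u
    · by_cases h3 : ∃ u, w.1 n m = some u
      · rw [dif_pos h2, dif_pos h3] at h1
        have h4 : h2.choose = h3.choose := congrArg Subtype.val (Option.some_injective _ h1)
        rw [h2.choose_spec, h3.choose_spec, h4]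
      · rw [dif_pos h2, dif_neg h3] at h1
        exact absurd h1 (by simp)
    · by_cases h3 : ∃ u, w.1 n m = some u
      · rw [dif_neg h2, dif_pos h3] at h1
        exact absurd h1 (by simp)
      · push Not at h2 h3
        rw [Option.eq_none_iff_forall_ne_some.2 h2, Option.eq_none_iff_forall_ne_some.2 h3]
  refine (Cardinal.mk_le_of_injective hf).trans ?_
  have h1 : #(Option (CondS K T)) ≤ #K := by
    rw [Cardinal.mk_option]
    calc #(CondS K T) + 1 ≤ #K + #K := add_le_add (mk_CondS T hT)
          (Cardinal.one_le_aleph0.trans (Cardinal.aleph0_le_mk K))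
      _ = #K := Cardinal.add_eq_self (Cardinal.aleph0_le_mk K)
  have h2 : #(ℕ → ℕ → Option (CondS K T)) = #(Option (CondS K T)) ^ ℵ₀ := by
    rw [← Cardinal.mk_congr (Equiv.curry ℕ ℕ (Option (CondS K T)))]
    simp
  rw [h2, ← hK]
  exact Cardinal.power_le_power_right h1

/-- the parameters contain all names -/
theorem exists_par (K : Type) [Infinite K] (hK : #K ^ ℵ₀ = #K) :
    ∃ Γ : Par K (Order.succ #K).ord.ToType, Full Γ ∧
      ∀ (x : Nm K (Order.succ #K).ord.ToType) (β δ : (Order.succ #K).ord.ToType),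
        Supp (Set.Iio δ) x → ∃ j, β ≤ j ∧ Γ.A j = x := by
  have hIio : ∀ δ : (Order.succ #K).ord.ToType, #(Set.Iio δ) ≤ #K := fun δ =>
    Order.lt_succ_iff.1 (Cardinal.mk_Iio_toType_ord_lt δ)
  have he : ∀ δ : (Order.succ #K).ord.ToType,
      ∃ g : K → Nm K (Order.succ #K).ord.ToType, ∀ x, Supp (Set.Iio δ) x → ∃ k, g k = x := by
    intro δ
    have h1 := mk_supp hK (Set.Iio δ) (hIio δ)
    have h2 : Nonempty {x : Nm K (Order.succ #K).ord.ToType // Supp (Set.Iio δ) x} :=
      ⟨⟨fun _ _ => none, fun _ _ _ h => by simp at h⟩⟩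
    obtain ⟨g⟩ := h1
    refine ⟨fun k => (Function.invFun g k).1, fun x hx => ⟨g ⟨x, hx⟩, ?_⟩⟩
    show (Function.invFun g (g ⟨x, hx⟩)).1 = x
    rw [Function.leftInverse_invFun g.injective]
  choose e he using he
  have hI : #((Order.succ #K).ord.ToType) = Order.succ #K := by
    rw [Cardinal.mk_ord_toType]
  -- all names with bounded support
  let B : Set (Nm K (Order.succ #K).ord.ToType) := {x | ∃ δ, Supp (Set.Iio δ) x}
  have hB : #B ≤ #((Order.succ #K).ord.ToType) := by
    have h1 : B = ⋃ δ, {x | Supp (Set.Iio δ) x} := by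
      ext x
      simp [B]
    rw [h1]
    refine (Cardinal.mk_iUnion_le _).trans ?_
    rw [hI]
    calc Order.succ #K * _ ≤ Order.succ #K * Order.succ #K := by
          apply mul_le_mul' le_rfl
          apply ciSup_le'
          intro δ
          exact (mk_supp hK (Set.Iio δ) (hIio δ)).trans (Order.le_succ _)
      _ = Order.succ #K := Cardinal.mul_eq_self
          ((Cardinal.aleph0_le_mk K).trans (Order.le_succ _))
  have hne : Nonempty (Order.succ #K).ord.ToType := by
    rw [← Cardinal.mk_ne_zero_iff, hI]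
    exact (Order.succ_ne_bot _)
  have hBne : Nonempty B := ⟨⟨fun _ _ => none, hne.some, fun _ _ _ h => by simp at h⟩⟩
  have h2 : #((Order.succ #K).ord.ToType × B) ≤ #((Order.succ #K).ord.ToType) := by
    rw [Cardinal.mk_prod, Cardinal.lift_id, Cardinal.lift_id]
    calc #((Order.succ #K).ord.ToType) * #B ≤
          #((Order.succ #K).ord.ToType) * #((Order.succ #K).ord.ToType) := mul_le_mul' le_rfl hB
      _ = _ := Cardinal.mul_eq_self (by
          rw [hI]
          exact (Cardinal.aleph0_le_mk K).trans (Order.le_succ _))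
  obtain ⟨g⟩ := h2
  refine ⟨⟨fun j => (Function.invFun g j).2.1, e⟩, he, fun x β δ hx => ?_⟩
  by_contra hcon
  push Not at hcon
  have h3 : ∀ i, g (i, ⟨x, δ, hx⟩) < β := by
    intro i
    by_contra h4
    apply hcon _ (not_lt.1 h4)
    show (Function.invFun g (g (i, ⟨x, δ, hx⟩))).2.1 = x
    rw [Function.leftInverse_invFun g.injective]
  have h4 : #((Order.succ #K).ord.ToType) ≤ #(Set.Iio β) :=
    Cardinal.mk_le_of_injective (f := fun i => (⟨g (i, ⟨x, δ, hx⟩), h3 i⟩ : Set.Iio β)) (by
      intro i i' h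
      have h5 := g.injective (Subtype.mk.inj h)
      exact (Prod.mk.inj h5).1)
  have h5 := h4.trans (hIio β)
  rw [hI] at h5
  exact absurd h5 (not_le.2 (Order.lt_succ _))

end Pool.Agent.W684.BMA
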