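import Pool.Agent.W684.BMA.PP

/-!
# The generic objects capture all reals of the earlier stages
-/

set_option autoImplicit false
set_option linter.unusedSectionVars false

namespace Pool.Agent.W684.BMA

open Classical Pool.Agent.Helper669.Forcing

variable {K I : Type} [LinearOrder I] [WellFoundedLT I] {Γ : Par K I}

theorem cap_mono {α ξ : ℕ → Bool} {b b' b'' : ℕ} {y y' : ℕ → Bool} (hb : b' ≤ b'')
    (hy : ∀ n, b ≤ n → n < b' → y n = y' n) (h : cap α ξ b b' y) : cap α ξ b b'' y' := by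
  obtain ⟨a, a', h1, h2, h3, h4, h5, h6, h7⟩ := h
  exact ⟨a, a', h1, h2, h3.trans hb, h4, h5, h6, fun n hn hn' => by
    rw [h7 n hn hn', hy n (h1.trans hn) (hn'.trans_le h3)]⟩

section

variable {j : I} {N : ℕ → Set (PP Γ)}

theorem exists_elem (hrep : Rep Γ (Γ.A j) N) (hs : Supp (Set.Iio j) (Γ.A j)) {t : PP Γ}
    (ht : t ∈ InfN N) (c : ℕ) : ∃ t' : PP Γ, t' ≤ t ∧ ∃ a, c ≤ a ∧
      Bit (le Γ (Set.Iio j)) t' (Γ.A j) a true := by
  obtain ⟨t1, ht1, a, hca, ha⟩ := mem_fex.1 (ht c) t le_rfl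
  obtain ⟨t2, ht2, b, hb⟩ := Bit.dense (Γ := Γ) (T := Set.univ) t1 (Γ.A j) a
  have h1 : (t2 : PP Γ) ∈ meets (N a) := down_meets _ _ ha t2 ht2
  have h2 : b = true := (hrep.true_iff hb).1 h1
  subst h2
  exact ⟨t2, le_trans' isLowerSet_univ ht2 ht1, a, hca,
    (Bit.iff_of_supp (lower_Iio j) (Set.subset_univ _) hs).1 hb⟩

theorem exists_bits (hrep : Rep Γ (Γ.A j) N) (hs : Supp (Set.Iio j) (Γ.A j)) {q : PP Γ}
    (hq : q ∈ InfN N) (b : ℕ) (F : List K) (r : PP Γ) (hr : r ≤ q) :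
    ∃ t : PP Γ, t ≤ r ∧ ∃ β : List Bool, β ≠ [] ∧ ∀ t', le Γ (Set.Iio j) t' t →
      ∀ k ∈ F, ∀ α ξ : ℕ → Bool,
        (∀ n ≤ b + β.length, Bit (le Γ (Set.Iio j)) t' (Γ.A j) n (α n)) →
        (∀ n ≤ b + β.length, Bit (le Γ (Set.Iio j)) t' (Γ.e j k) n (ξ n)) →
        cap α ξ b (b + β.length) (fun n => β.getD (n - b) false) := by
  induction F with
  | nil => exact ⟨r, le_rfl, [false], by simp, fun _ _ k hk => absurd hk List.not_mem_nil⟩
  | cons k F ih =>
    obtain ⟨t, ht, β, hβ, hcap⟩ := ih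
    have hlow := lower_Iio j
    obtain ⟨t1, ht1, a0, ha0, hb0⟩ := exists_elem hrep hs
      (down_InfN N q hq t (ht.trans hr)) (b + β.length)
    obtain ⟨t2, ht2, a1, ha1, hb1⟩ := exists_elem hrep hs
      (down_InfN N q hq t1 (ht1.trans (ht.trans hr))) (a0 + 1)
    obtain ⟨t3, ht3, hd3⟩ := (ofRaw (Γ := Γ) (Γ.A j) hlow).decide hlow isLowerSet_univ
      (Set.subset_univ _) (a1 + 1) t2
    obtain ⟨t4, ht4, hd4⟩ := (ofRaw (Γ := Γ) (Γ.e j k) hlow).decide hlow isLowerSet_univ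
      (Set.subset_univ _) (a1 + 1) t3
    choose! α4 hα4 using hd3
    choose! ξ4 hξ4 using hd4
    have ht3' : le Γ (Set.Iio j) t3 t2 := le_mono (Set.subset_univ _) ht3
    have ht2' : le Γ (Set.Iio j) t2 t1 := le_mono (Set.subset_univ _) ht2
    have hα1 : α4 a1 = true := (hα4 a1 (by omega)).unique (hb1.mono hlow ht3')
    have hα0 : α4 a0 = true := (hα4 a0 (by omega)).unique (hb0.mono hlow (le_trans' hlow ht3' ht2'))
    have hex : ∃ n, a0 < n ∧ α4 n = true := ⟨a1, by omega, hα1⟩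
    have ha' := Nat.find_spec hex
    have hmin := fun m hm => Nat.find_min hex (m := m) hm
    have hle : Nat.find hex ≤ a1 := Nat.find_min' hex ⟨by omega, hα1⟩
    generalize Nat.find hex = a' at ha' hmin hle
    let β' : List Bool := (List.range (a' - b)).map fun i =>
      if i < β.length then β.getD i false else ξ4 (b + i)
    have hlen : β'.length = a' - b := by simp [β']
    have hba' : b + β'.length = a' := by omega
    have hget : ∀ n, b ≤ n → n < a' → β'.getD (n - b) false =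
        if n - b < β.length then β.getD (n - b) false else ξ4 (b + (n - b)) := by
      intro n h1 h2
      rw [List.getD_eq_getElem _ _ (by rw [hlen]; omega)]
      simp [β']
    refine ⟨t4, ?_, β', ?_, ?_⟩
    · exact le_trans' isLowerSet_univ ht4 (le_trans' isLowerSet_univ ht3
        (le_trans' isLowerSet_univ ht2 (le_trans' isLowerSet_univ ht1 ht)))
    · intro h
      rw [h] at hlen
      simp at hlen
      omega
    · intro t' ht' k' hk' α ξ hα hξ
      rw [hba'] at hα hξ ⊢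
      have ht4' : le Γ (Set.Iio j) t' t3 := le_trans' hlow ht' (le_mono (Set.subset_univ _) ht4)
      have hαeq : ∀ n ≤ a', α n = α4 n := fun n hn =>
        (hα n hn).unique ((hα4 n (by omega)).mono hlow ht4')
      rcases List.mem_cons.1 hk' with rfl | hk'
      · refine ⟨a0, a', by omega, ha'.1, le_rfl, ?_, ?_, ?_, ?_⟩
        · rw [hαeq a0 (by omega), hα0]
        · rw [hαeq a' le_rfl, ha'.2]
        · intro c hc hc'
          rw [hαeq c (by omega)]
          have := hmin c hc'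
          push Not at this
          simpa using this hc
        · intro n hn hn'
          show ξ n = β'.getD (n - b) false
          rw [hget n (by omega) hn', if_neg (by omega), (hξ n (by omega)).unique
            ((hξ4 n (by omega)).mono hlow ht')]
          congr 1
          omega
      · have ht't : le Γ (Set.Iio j) t' t :=
          le_trans' hlow ht4' (le_trans' hlow ht3' (le_trans' hlow ht2'
            (le_mono (Set.subset_univ _) ht1)))
        have h1 := hcap t' ht't k' hk' α ξ (fun n hn => hα n (by omega))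
          (fun n hn => hξ n (by omega))
        refine cap_mono (by omega) (fun n hn hn' => ?_) h1
        rw [hget n hn (by omega), if_pos (by omega)]

theorem off_snoc_left (s : List (List Bool)) (β : List Bool) :
    off (s ++ [β]) s.length = len s := by
  rw [off_prefix (List.prefix_append s [β]) le_rfl, off_length]

theorem off_snoc_right (s : List (List Bool)) (β : List Bool) :
    off (s ++ [β]) (s.length + 1) = len s + β.length := by
  have h : s.length + 1 = (s ++ [β]).length := by simp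
  rw [h, off_length, len, len]
  simp

theorem bits_snoc (s : List (List Bool)) (β : List Bool) {n : ℕ} (hn : len s ≤ n) :
    bits (s ++ [β]) n = β.getD (n - len s) false := by
  rw [bits, List.flatten_append, List.getD_append_right _ _ _ _ hn]
  simp [len]

theorem exists_block (hrep : Rep Γ (Γ.A j) N) (hs : Supp (Set.Iio j) (Γ.A j)) {q : PP Γ}
    (hq : q ∈ InfN N) (r : PP Γ) (hr : r ≤ q) : ∃ r' : PP Γ, r' ≤ r ∧ ∃ β : List Bool, β ≠ [] ∧
      PP.toC (Γ := Γ) r' j = ⟨(PP.toC (Γ := Γ) r j).stem ++ [β], (PP.toC (Γ := Γ) r j).pr⟩ := by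
  obtain ⟨r0, hr0⟩ : ∃ r0 : Cond K I, r0 = r := ⟨r, rfl⟩
  obtain ⟨t, ht, β, hβ, hcap⟩ := exists_bits hrep hs hq (len (r0 j).stem) (r0 j).pr r hr
  obtain ⟨t0, ht0⟩ : ∃ t0 : Cond K I, t0 = t := ⟨t, rfl⟩
  subst hr0 ht0
  refine ⟨upd (mix (Set.Iio j) t0 r0) j ⟨(r0 j).stem ++ [β], (r0 j).pr⟩, ?_, β, hβ,
    upd_same _ _ _⟩
  intro i _
  rcases lt_trichotomy i j with h | rfl | h
  · refine ext_congr i (fun l hl => ?_) rfl (ht i (Set.mem_univ i))
    rw [upd_of_ne _ _ (ne_of_lt (hl.trans_lt h)),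
      mix_mem _ _ (show l ∈ Set.Iio j from hl.trans_lt h)]
  · rw [ext_iff, upd_same]
    refine ⟨List.prefix_append _ _, List.Subset.refl _, fun k hk t' ht' α ξ hα hξ => ?_⟩
    have h1 : le Γ (Set.Iio i) t' t0 := by
      refine le_congr (lower_Iio i) (fun _ _ => rfl) (fun l hl => ?_) ht'
      rw [upd_of_ne _ _ (ne_of_lt hl), mix_mem _ _ hl]
    have hlen : len ((r0 i).stem ++ [β]) = len (r0 i).stem + β.length := by
      simp [len]
    simp only at hα hξ ⊢
    rw [hlen] at hα hξ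
    have h2 := hcap t' h1 k hk α ξ hα hξ
    intro m hm hm'
    have hm2 : m = (r0 i).stem.length := by
      rw [List.length_append, List.length_singleton] at hm'
      omega
    subst hm2
    rw [off_snoc_left, off_snoc_right]
    refine cap_mono le_rfl (fun n hn hn' => ?_) h2
    rw [bits_snoc _ _ hn]
  · have h1 : (upd (mix (Set.Iio j) t0 r0) j ⟨(r0 j).stem ++ [β], (r0 j).pr⟩) i = r0 i := by
      rw [upd_of_ne _ _ (ne_of_gt h), mix_notMem _ _ (by simp [h.le])]
    exact ext_same_stem (by rw [h1]) (by rw [h1]; exact fun _ h => h)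

end

/-- the generic partition -/
def genB (Γ : Par K I) (j : I) (n : ℕ) : Set (PP Γ) :=
  {r | ∃ i ≤ (PP.toC (Γ := Γ) r j).stem.length, off (PP.toC (Γ := Γ) r j).stem i = n}

/-- the generic real -/
def genY (Γ : Par K I) (j : I) (n : ℕ) : Set (PP Γ) :=
  {r | n < len (PP.toC (Γ := Γ) r j).stem ∧ bits (PP.toC (Γ := Γ) r j).stem n = true}

theorem stem_prefix {r q : PP Γ} (h : r ≤ q) (j : I) :
    (PP.toC (Γ := Γ) q j).stem <+: (PP.toC (Γ := Γ) r j).stem := ext_stem (h j (Set.mem_univ j))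

theorem down_genB (j : I) (n : ℕ) : Down (genB Γ j n) := by
  rintro p ⟨i, hi, h⟩ q hq
  have h1 := stem_prefix hq j
  exact ⟨i, hi.trans h1.length_le, by rw [off_prefix h1 hi, h]⟩

theorem down_genY (j : I) (n : ℕ) : Down (genY Γ j n) := by
  rintro p ⟨hi, h⟩ q hq
  have h1 := stem_prefix hq j
  exact ⟨hi.trans_le (len_prefix h1), by rw [bits_prefix h1 hi, h]⟩

section

variable {j : I} {N : ℕ → Set (PP Γ)}

theorem exists_long (hrep : Rep Γ (Γ.A j) N) (hs : Supp (Set.Iio j) (Γ.A j)) {q : PP Γ}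
    (hq : q ∈ InfN N) (m : ℕ) : ∀ r : PP Γ, r ≤ q → ∃ r' : PP Γ, r' ≤ r ∧
      m ≤ len (PP.toC (Γ := Γ) r' j).stem := by
  induction m with
  | zero => exact fun r _ => ⟨r, le_rfl, Nat.zero_le _⟩
  | succ m ih =>
    intro r hr
    obtain ⟨r1, hr1, h1⟩ := ih r hr
    obtain ⟨r2, hr2, β, hβ, h2⟩ := exists_block hrep hs hq r1 (hr1.trans hr)
    refine ⟨r2, hr2.trans hr1, ?_⟩
    rw [h2]
    have h3 : 0 < β.length := List.length_pos_iff.2 hβ
    have h4 : len ((PP.toC (Γ := Γ) r1 j).stem ++ [β]) = len (PP.toC (Γ := Γ) r1 j).stem + β.length := by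
      simp [len]
    simp only
    rw [h4]
    omega

theorem infN_genB (hrep : Rep Γ (Γ.A j) N) (hs : Supp (Set.Iio j) (Γ.A j)) {q : PP Γ}
    (hq : q ∈ InfN N) : q ∈ InfN (genB Γ j) := by
  intro m
  refine mem_fex.2 fun r hr => ?_
  obtain ⟨r', hr', h1⟩ := exists_long hrep hs hq m r hr
  exact ⟨r', hr', _, h1, meets_of_mem ⟨_, le_rfl, off_length _⟩⟩

theorem captured_gen (hrep : Rep Γ (Γ.A j) N) (hs : Supp (Set.Iio j) (Γ.A j)) {q : PP Γ}
    (hq : q ∈ InfN N) {x : ℕ → Set (PP Γ)} {k : K} (hk : Rep Γ (Γ.e j k) x)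
    (hks : Supp (Set.Iio j) (Γ.e j k)) : q ∈ CapturedN N (genB Γ j) (genY Γ j) x := by
  have hlow := lower_Iio j
  refine mem_fex.2 fun r hr => ?_
  let r0 : Cond K I := r
  let r1 : Cond K I := upd r0 j ⟨(r0 j).stem, k :: (r0 j).pr⟩
  have hr1j : r1 j = ⟨(r0 j).stem, k :: (r0 j).pr⟩ := upd_same _ _ _
  have hr1 : le Γ Set.univ r1 r0 := by
    intro i _
    by_cases h : i = j
    · subst h
      exact ext_same_stem (by rw [hr1j]) (by rw [hr1j]; exact List.subset_cons_self _ _)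
    · have h1 : r1 i = r0 i := upd_of_ne _ _ h
      exact ext_same_stem (by rw [h1]) (by rw [h1]; exact fun _ h => h)
  refine ⟨r1, hr1, len (r0 j).stem, fun b => ?_⟩
  refine mem_fimp.2 fun q1 hq1 hNb => ⟨q1, le_rfl, ?_⟩
  have hNb' : len (r0 j).stem ≤ b := hNb
  refine mem_fimp.2 fun r2 hr2 hr2b => ?_
  obtain ⟨r3, hr3, i, hi, hib⟩ := mem_meets_of_down (down_genB j b) hr2b
  have hr31 : r3 ≤ (r1 : PP Γ) := hr3.trans (hr2.trans hq1)
  have hr3q : r3 ≤ q := le_trans' isLowerSet_univ hr31 (le_trans' isLowerSet_univ hr1 hr)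
  obtain ⟨r4, hr4, β, -, h4j⟩ := exists_block hrep hs hq r3 hr3q
  -- the stems
  have hp13 : (r0 j).stem <+: (PP.toC (Γ := Γ) r3 j).stem := by
    have := stem_prefix hr31 j
    rwa [show (PP.toC (Γ := Γ) r1 j).stem = (r0 j).stem by rw [hr1j]] at this
  have hp34 : (PP.toC (Γ := Γ) r3 j).stem <+: (PP.toC (Γ := Γ) r4 j).stem := stem_prefix hr4 j
  obtain ⟨i', hi'1, hi'2, hi'b⟩ : ∃ i', (r0 j).stem.length ≤ i' ∧
      i' ≤ (PP.toC (Γ := Γ) r3 j).stem.length ∧ off (PP.toC (Γ := Γ) r3 j).stem i' = b := by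
    by_cases h : i < (r0 j).stem.length
    · refine ⟨(r0 j).stem.length, le_rfl, hp13.length_le, ?_⟩
      have h1 := off_mono (PP.toC (Γ := Γ) r3 j).stem h.le
      rw [off_prefix hp13 le_rfl, off_length] at h1 ⊢
      omega
    · exact ⟨i, not_lt.1 h, hi, hib⟩
  have hlen4 : (PP.toC (Γ := Γ) r4 j).stem.length = (PP.toC (Γ := Γ) r3 j).stem.length + 1 := by
    rw [h4j]
    simp
  have hob : off (PP.toC (Γ := Γ) r4 j).stem i' = b := by
    rw [off_prefix hp34 hi'2, hi'b]
  -- decide the bits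
  let r40 : Cond K I := r4
  obtain ⟨t, ht, hd⟩ := (ofRaw (Γ := Γ) (Γ.A j) hlow).decide hlow hlow (Set.Subset.refl _)
    (len (r40 j).stem + 1) r40
  obtain ⟨t', ht', hd'⟩ := (ofRaw (Γ := Γ) (Γ.e j k) hlow).decide hlow hlow (Set.Subset.refl _)
    (len (r40 j).stem + 1) t
  choose! α hα using hd
  choose! ξ hξ using hd'
  let r5 : Cond K I := mix (Set.Iio j) t' r40
  have hr5 : le Γ Set.univ r5 r40 := mix_le hlow (le_trans' hlow ht' ht)
  have hr5t : le Γ (Set.Iio j) r5 t' := le_of_eq hlow fun i hi => mix_mem _ _ hi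
  have hr5j : r5 j = r40 j := mix_notMem _ _ (by simp)
  have hα5 : ∀ n ≤ len (r40 j).stem, Bit (le Γ (Set.Iio j)) r5 (Γ.A j) n (α n) := fun n hn =>
    Bit.mono hlow (hα n (by omega)) (le_trans' hlow hr5t ht')
  have hξ5 : ∀ n ≤ len (r40 j).stem, Bit (le Γ (Set.Iio j)) r5 (Γ.e j k) n (ξ n) := fun n hn =>
    Bit.mono hlow (hξ n (by omega)) hr5t
  have hr51 : le Γ Set.univ r5 r1 :=
    le_trans' isLowerSet_univ hr5 (le_trans' isLowerSet_univ hr4 hr31)
  have hok : newOK α ξ (r0 j).stem.length (r40 j).stem := by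
    have h1 := hr51 j (Set.mem_univ j)
    rw [ext_iff, hr1j, hr5j] at h1
    exact h1.2.2 k (by simp) r5 (le_refl' _ r5) α ξ hα5 hξ5
  obtain ⟨a, a', h1, h2, h3, h4, h5, h6, h7⟩ := hok i' hi'1 (by
    show i' < (PP.toC (Γ := Γ) r4 j).stem.length
    omega)
  rw [show off (r40 j).stem i' = b from hob] at h1
  have ha'len : a' ≤ len (r40 j).stem := h3.trans (off_le_len _ _)
  have hAbit : ∀ n ≤ len (r40 j).stem, Bit (le Γ Set.univ) r5 (Γ.A j) n (α n) := fun n hn =>
    (Bit.iff_of_supp hlow (Set.subset_univ _) hs).2 (hα5 n hn)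
  have hxbit : ∀ n ≤ len (r40 j).stem, Bit (le Γ Set.univ) r5 (Γ.e j k) n (ξ n) := fun n hn =>
    (Bit.iff_of_supp hlow (Set.subset_univ _) hks).2 (hξ5 n hn)
  refine ⟨r5, le_trans' isLowerSet_univ hr5 (le_trans' isLowerSet_univ hr4 hr3), ?_⟩
  refine mem_fex_of_mem a (down_fex _) ?_
  refine mem_fex_of_mem a' (down_fand (down_fground _) (down_fand (down_NextN _ _ _)
    (down_fand (down_fall fun _ => down_fimp _ _) (down_fall fun _ => down_fimp _ _)))) ?_
  refine ⟨h1, ⟨h2, ?_, ?_, fun c => ?_⟩, fun b' => ?_, fun n => ?_⟩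
  · exact (hrep.true_iff (hAbit a (by omega))).2 h4
  · exact (hrep.true_iff (hAbit a' ha'len)).2 h5
  · refine mem_fimp.2 fun u hu huc => ⟨u, le_rfl, ?_⟩
    show c ≤ a ∨ a' ≤ c
    by_contra hcon
    push Not at hcon
    have h8 : Bit (le Γ Set.univ) u (Γ.A j) c false :=
      Bit.mono isLowerSet_univ (h6 c hcon.1 hcon.2 ▸ hAbit c (by omega)) hu
    exact hrep.2 c u h8 u le_rfl huc
  · refine mem_fimp.2 fun u hu hub => ⟨u, le_rfl, ?_⟩
    show b' ≤ b ∨ a' ≤ b'
    obtain ⟨w, hw, i'', hi'', h8⟩ := mem_meets_of_down (down_genB j b') hub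
    have hp : (r40 j).stem <+: (PP.toC (Γ := Γ) w j).stem := by
      have := stem_prefix (hw.trans (show u ≤ (r5 : PP Γ) from hu)) j
      rwa [show (PP.toC (Γ := Γ) r5 j).stem = (r40 j).stem by rw [hr5j]] at this
    have hlen40 : (r40 j).stem.length = (PP.toC (Γ := Γ) r3 j).stem.length + 1 := hlen4
    by_cases h9 : i'' ≤ i'
    · left
      have h10 := off_mono (PP.toC (Γ := Γ) w j).stem h9
      rw [h8, off_prefix hp (by omega)] at h10
      exact h10.trans hob.le
    · right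
      have h10 := off_mono (PP.toC (Γ := Γ) w j).stem (show i' + 1 ≤ i'' by omega)
      rw [h8, off_prefix hp (by omega)] at h10
      exact h3.trans h10
  · refine mem_fimp.2 fun u hu hn => ⟨u, le_rfl, ?_⟩
    obtain ⟨hn1, hn2⟩ : a ≤ n ∧ n < a' := hn
    have hnlen : n < len (r40 j).stem := by omega
    refine mem_fiff (fun w hw => ⟨w, le_rfl, ?_⟩) (down_meets _) (down_meets _)
    have hw5 : le Γ Set.univ w r5 := le_trans' isLowerSet_univ hw hu
    refine (hk.true_iff (Bit.mono isLowerSet_univ (hxbit n hnlen.le) hw5)).trans ?_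
    have hp : (r40 j).stem <+: (PP.toC (Γ := Γ) w j).stem := by
      have := stem_prefix (show w ≤ (r5 : PP Γ) from hw5) j
      rwa [show (PP.toC (Γ := Γ) r5 j).stem = (r40 j).stem by rw [hr5j]] at this
    constructor
    · intro h8
      refine meets_of_mem ⟨hnlen.trans_le (len_prefix hp), ?_⟩
      rw [bits_prefix hp hnlen, ← h7 n hn1 hn2, h8]
    · intro h8
      obtain ⟨v, hv, hv1, hv2⟩ := mem_meets_of_down (down_genY j n) h8
      rw [bits_prefix (hp.trans (stem_prefix hv j)) hnlen, ← h7 n hn1 hn2] at hv2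
      exact hv2

end

end Pool.Agent.W684.BMA
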