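import Pool.Agent.Helper669.Forcing

/-!
# The bounding number and the meager-additive sets: the combinatorial sentence which is forced

Reals are subsets of `ℕ`. An infinite set `A` of natural numbers stands for the partition of
`ℕ` (without an initial segment) into the intervals between consecutive elements of `A`.
The sentence `PhiHolds P K L` of the forcing language is the literal translation of the
proposition `PhiFor K L`: quantifiers over sets and functions become quantifiers over names.
-/

set_option autoImplicit false

namespace Pool.Agent.W684.BMA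

open Pool.Agent.Helper669.Forcing

section Ambient

/-- `A` is an infinite set of natural numbers. -/
def Inf (A : ℕ → Prop) : Prop := ∀ m, ∃ n, m ≤ n ∧ A n

/-- `[a, a')` is an interval of the partition given by `A`. -/
def Next (A : ℕ → Prop) (a a' : ℕ) : Prop :=
  a < a' ∧ A a ∧ A a' ∧ ∀ c, A c → c ≤ a ∨ a' ≤ c

/-- For almost all `b ∈ B`, the interval of the partition `B` starting at `b` contains an
interval `[a, a')` of the partition `A` on which `x` and `y` agree. -/
def Captured (A B y x : ℕ → Prop) : Prop :=
  ∃ N, ∀ b, N ≤ b → B b → ∃ a a', b ≤ a ∧ Next A a a' ∧ (∀ b', B b' → b' ≤ b ∨ a' ≤ b') ∧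
    ∀ n, a ≤ n ∧ n < a' → (x n ↔ y n)

/-- There is a family of functions indexed by `K` which is not bounded. -/
def Unbounded (K : Type) : Prop :=
  ∃ h : K → ℕ → ℕ, ∀ f : ℕ → ℕ, ∃ k, ∀ N, ∃ n, N ≤ n ∧ f n < h k n

/-- Every family of reals indexed by `K` is captured, for every partition `A`. -/
def AllCaptured (K : Type) : Prop :=
  ∀ (x : K → ℕ → Prop) (A : ℕ → Prop), Inf A →
    ∃ B y : ℕ → Prop, Inf B ∧ ∀ k, Captured A B y (x k)

/-- No family of different reals indexed by `L` is captured for all partitions `A`. -/
def FewCaptured (L : Type) : Prop :=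
  ∀ x : L → ℕ → Prop, (∀ l l', l ≠ l' → ∃ n, ¬ (x l n ↔ x l' n)) →
    ∃ A : ℕ → Prop, Inf A ∧ ∀ B y : ℕ → Prop, Inf B → ∃ l, ¬ Captured A B y (x l)

/-- The three statements together. -/
def PhiFor (K L : Type) : Prop := Unbounded K ∧ AllCaptured K ∧ FewCaptured L

end Ambient

section Names

variable {P : Type} [Preorder P]

/-- `φ if and only if ψ`. -/
def fiff (φ ψ : Set P) : Set P := fand (fimp φ ψ) (fimp ψ φ)

/-- Forcing version of `Inf`. -/
def InfN (A : ℕ → Set P) : Set P :=
  fall fun m => fex fun n => fand (fground (m ≤ n)) (meets (A n))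

/-- Forcing version of `Next`. -/
def NextN (A : ℕ → Set P) (a a' : ℕ) : Set P :=
  fand (fground (a < a')) (fand (meets (A a)) (fand (meets (A a'))
    (fall fun c => fimp (meets (A c)) (fground (c ≤ a ∨ a' ≤ c)))))

/-- Forcing version of `Captured`. -/
def CapturedN (A B y x : ℕ → Set P) : Set P :=
  fex fun N => fall fun b => fimp (fground (N ≤ b)) (fimp (meets (B b))
    (fex fun a => fex fun a' => fand (fground (b ≤ a)) (fand (NextN A a a')
      (fand (fall fun b' => fimp (meets (B b')) (fground (b' ≤ b ∨ a' ≤ b')))
        (fall fun n => fimp (fground (a ≤ n ∧ n < a')) (fiff (meets (x n)) (meets (y n))))))))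

/-- Forcing version of `Unbounded`; functions are given by names of their graphs. -/
def UnboundedN (P : Type) [Preorder P] (K : Type) : Set P :=
  fex fun h : K → ℕ → ℕ → Set P => fand (fall fun k => IsFun (h k))
    (fall fun f : ℕ → ℕ → Set P => fimp (IsFun f) (fex fun k => fall fun N => fex fun n =>
      fand (fground (N ≤ n)) (fex fun a => fex fun b => fand (meets (f n a))
        (fand (meets (h k n b)) (fground (a < b))))))

/-- Forcing version of `AllCaptured`. -/
def AllCapturedN (P : Type) [Preorder P] (K : Type) : Set P :=
  fall fun x : K → ℕ → Set P => fall fun A : ℕ → Set P => fimp (InfN A)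
    (fex fun B : ℕ → Set P => fex fun y : ℕ → Set P => fand (InfN B)
      (fall fun k => CapturedN A B y (x k)))

/-- Forcing version of `FewCaptured`. -/
def FewCapturedN (P : Type) [Preorder P] (L : Type) : Set P :=
  fall fun x : L → ℕ → Set P =>
    fimp (fall fun l => fall fun l' => fimp (fground (l ≠ l'))
        (fex fun n => fnot (fiff (meets (x l n)) (meets (x l' n)))))
      (fex fun A : ℕ → Set P => fand (InfN A) (fall fun B : ℕ → Set P =>
        fall fun y : ℕ → Set P => fimp (InfN B) (fex fun l => fnot (CapturedN A B y (x l)))))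

/-- The sentence `PhiFor K L` of the forcing language. -/
def PhiHolds (P : Type) [Preorder P] (K L : Type) : Set P :=
  fand (UnboundedN P K) (fand (AllCapturedN P K) (FewCapturedN P L))

end Names

end Pool.Agent.W684.BMA
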