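import Pool.Agent.W684.BMA.Run

/-!
# Compactness of the pieces: the successor step
-/

set_option autoImplicit false
set_option linter.unusedSectionVars false

namespace Pool.Agent.W684.BMA

open Classical

variable {K I : Type} [LinearOrder I] [WellFoundedLT I] {Γ : Par K I} {S T R : Set I} {X Y : Type}

/-- every task can be fulfilled, by finitely many attempts above one lower part -/
def Tot (R : Set I) (D : Task Γ T Y) : Prop :=
  ∀ m r, ∃ t L, ∃ X : List (Cond K I), le Γ R t r ∧ (∀ c ∈ X, le Γ T (mix R t c) r) ∧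
    ∀ y t1, le Γ R t1 t → ∃ t2, le Γ R t2 t1 ∧ ∃ c ∈ X, mix R t2 c ∈ D.D m L y

theorem exists_list_bound {α : Type} (f : α → ℕ) (l : List α) : ∃ v, ∀ c ∈ l, f c ≤ v := by
  induction l with
  | nil => exact ⟨0, fun c hc => absurd hc List.not_mem_nil⟩
  | cons a l ih =>
    obtain ⟨v, hv⟩ := ih
    refine ⟨max (f a) v, fun c hc => ?_⟩
    rcases List.mem_cons.1 hc with rfl | hc
    · exact le_max_left _ _
    · exact (hv c hc).trans (le_max_right _ _)

section Succ

variable {δ : I}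

/-- the pieces at a successor step -/
def Qs (δ : I) (i : ℕ) : Set (Cond K I) :=
  {r | Encodable.encode (r δ).stem ≤ i ∧ (r δ).pr.length ≤ i}

/-- the node `τ` is secured -/
def SecL (δ : I) (D : Task Γ (Set.Iic δ) Y) (m : ℕ) (s : List (List Bool)) (N : ℕ)
    (τ : List (Fin N → Bool)) (L : ℕ) : Set (Cond K I) :=
  {t | ∀ (F : Fin N → K) (r : Cond K I), r δ = ⟨s, List.ofFn F⟩ → le Γ (Set.Iio δ) r t →
    (∀ n, ∀ h : n < τ.length, ∀ j, Bit (le Γ (Set.Iio δ)) r (Γ.e δ (F j)) n (τ[n] j)) →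
      ∀ y, ∃ r', le Γ (Set.Iic δ) r' r ∧ ∃ j ≤ L, r' ∈ Qs δ j ∧ r' ∈ D.D m L y}

variable {D : Task Γ (Set.Iic δ) Y} {m : ℕ} {s : List (List Bool)} {N : ℕ}

theorem SecL.op (τ : List (Fin N → Bool)) (L : ℕ) :
    Op Γ (Set.Iio δ) (SecL δ D m s N τ L) :=
  fun _ ht _ ht' F r h1 h2 h3 => ht F r h1 (le_trans' (lower_Iio δ) h2 ht') h3

theorem SecL.mono (τ : List (Fin N → Bool)) {L L' : ℕ} (hL : L ≤ L') :
    SecL δ D m s N τ L ⊆ SecL δ D m s N τ L' := by
  intro t ht F r h1 h2 h3 y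
  obtain ⟨r', h4, j, h5, h6, h7⟩ := ht F r h1 h2 h3 y
  exact ⟨r', h4, j, h5.trans hL, h6, D.mono _ _ _ _ hL h7⟩

theorem lower_Iic (j : I) : IsLowerSet (Set.Iic j) := isLowerSet_Iic j

theorem decide_fin {T : Set I} (hT : IsLowerSet T) (x : ℕ → Nm K I) (n : ℕ) (N : ℕ)
    (t : Cond K I) : ∃ t', le Γ T t' t ∧ ∀ j < N, ∃ b, Bit (le Γ T) t' (x j) n b := by
  induction N with
  | zero => exact ⟨t, le_refl' T t, fun j hj => absurd hj (Nat.not_lt_zero j)⟩
  | succ N ih =>
    obtain ⟨q, hq, h⟩ := ih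
    obtain ⟨r, hr, b, hb⟩ := Bit.dense (T := T) q (x N) n
    refine ⟨r, le_trans' hT hr hq, fun j hj => ?_⟩
    rcases Nat.lt_succ_iff_lt_or_eq.1 hj with h' | rfl
    · obtain ⟨b', hb'⟩ := h j h'
      exact ⟨b', hb'.mono hT hr⟩
    · exact ⟨b, hb⟩

theorem decide_fin' {T : Set I} (hT : IsLowerSet T) {N : ℕ} (x : Fin N → Nm K I) (n : ℕ)
    (t : Cond K I) : ∃ t', le Γ T t' t ∧ ∃ b : Fin N → Bool,
      ∀ j, Bit (le Γ T) t' (x j) n (b j) := by
  obtain ⟨t', h1, h2⟩ := decide_fin (Γ := Γ) hT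
    (fun j => if h : j < N then x ⟨j, h⟩ else fun _ _ => none) n N t
  have h3 : ∀ j : Fin N, ∃ b, Bit (le Γ T) t' (x j) n b := by
    intro j
    obtain ⟨b, hb⟩ := h2 j.1 j.2
    rw [dif_pos j.2] at hb
    exact ⟨b, hb⟩
  choose b hb using h3
  exact ⟨t', h1, b, hb⟩

/-- a node all of whose successors are secured is secured -/
theorem SecL.of_succ {τ : List (Fin N → Bool)} {L : ℕ} {t : Cond K I}
    (h : ∀ b, t ∈ SecL δ D m s N (τ ++ [b]) L) : t ∈ SecL δ D m s N τ L := by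
  intro F r h1 h2 h3 y
  obtain ⟨r0, hr0, b, hb⟩ := decide_fin' (Γ := Γ) (lower_Iio δ) (fun j => Γ.e δ (F j))
    τ.length r
  have h4 : le Γ (Set.Iic δ) (mix (Set.Iio δ) r0 r) r := mix_le (lower_Iio δ) hr0
  have h5 : le Γ (Set.Iio δ) (mix (Set.Iio δ) r0 r) r0 :=
    le_of_eq (lower_Iio δ) fun i hi => mix_mem _ _ hi
  have h6 : le Γ (Set.Iio δ) (mix (Set.Iio δ) r0 r) r := le_mono Set.Iio_subset_Iic_self h4
  obtain ⟨r', h7, h8⟩ := h b F (mix (Set.Iio δ) r0 r)
    (by rw [mix_notMem _ _ (by simp), h1]) (le_trans' (lower_Iio δ) h6 h2) (by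
      intro n hn j
      rw [List.length_append, List.length_singleton] at hn
      rcases Nat.lt_succ_iff_lt_or_eq.1 hn with h7 | rfl
      · rw [List.getElem_append_left h7]
        exact (h3 n h7 j).mono (lower_Iio δ) h6
      · have h8 : (τ ++ [b])[τ.length]'(by simp) = b := by simp
        rw [h8]
        exact (hb j).mono (lower_Iio δ) h5) y
  exact ⟨r', le_trans' (lower_Iic δ) h7 h4, h8⟩

/-- no extension secures the node -/
def NS (δ : I) (D : Task Γ (Set.Iic δ) Y) (m : ℕ) (s : List (List Bool)) (N : ℕ)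
    (τ : List (Fin N → Bool)) : Set (Cond K I) :=
  {t | ∀ t', le Γ (Set.Iio δ) t' t → ∀ L, t' ∉ SecL δ D m s N τ L}

theorem NS.op (τ : List (Fin N → Bool)) : Op Γ (Set.Iio δ) (NS δ D m s N τ) :=
  fun _ ht _ ht' t'' ht'' => ht t'' (le_trans' (lower_Iio δ) ht'' ht')

theorem NS.exists_succ {τ : List (Fin N → Bool)} {t : Cond K I} (ht : t ∈ NS δ D m s N τ) :
    ∃ t', le Γ (Set.Iio δ) t' t ∧ ∃ b, t' ∈ NS δ D m s N (τ ++ [b]) := by
  by_contra hcon
  have h1 : ∀ b : Fin N → Bool, ∀ t', le Γ (Set.Iio δ) t' t → ∃ t'', le Γ (Set.Iio δ) t'' t' ∧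
      ∃ L, t'' ∈ SecL δ D m s N (τ ++ [b]) L := by
    intro b t' ht'
    by_contra h
    exact hcon ⟨t', ht', b, fun t'' ht'' L hL => h ⟨t'', ht'', L, hL⟩⟩
  obtain ⟨B, hB⟩ := exists_list_bound (fun b : Fin N → Bool => Encodable.encode b)
    (Finset.univ : Finset (Fin N → Bool)).toList
  obtain ⟨q, hq, v, hv⟩ := dense_fin (Γ := Γ) (lower_Iio δ)
    (fun i v => {q | ∀ b : Fin N → Bool, Encodable.encode b = i →
      q ∈ SecL δ D m s N (τ ++ [b]) v})
    (fun i v p hp q hq b hb => SecL.op _ _ p (hp b hb) q hq)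
    (fun i v v' hv p hp b hb => SecL.mono _ hv (hp b hb)) t
    (fun i p hp => by
      by_cases h : ∃ b : Fin N → Bool, Encodable.encode b = i
      · obtain ⟨b, hb⟩ := h
        obtain ⟨q, hq, L, hL⟩ := h1 b p hp
        refine ⟨q, hq, L, fun b' hb' => ?_⟩
        rw [Encodable.encode_injective (hb'.trans hb.symm)]
        exact hL
      · exact ⟨p, le_refl' _ p, 0, fun b hb => absurd ⟨b, hb⟩ h⟩) (B + 1)
  refine ht q hq v (SecL.of_succ fun b => ?_)
  exact hv _ (Nat.lt_succ_of_le (hB b (by simp))) b rfl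

/-- the root is secured densely -/
theorem exists_secured (hD : Tot (Set.Iio δ) D)
    (he : ∀ x : Nm K I, Supp (Set.Iio δ) x → ∃ k, Γ.e δ k = x) (m : ℕ) (s : List (List Bool))
    (N : ℕ) (t : Cond K I) :
    ∃ t', le Γ (Set.Iio δ) t' t ∧ ∃ L, t' ∈ SecL δ D m s N [] L := by
  by_contra hcon
  have hlow := lower_Iio δ
  have h0 : t ∈ NS δ D m s N [] := fun t' ht' L hL => hcon ⟨t', ht', L, hL⟩
  -- the name of the branch
  obtain ⟨A, hA0, hA⟩ := exists_rec (Γ := Γ) hlow
    (Encodable.encode ([] : List (Fin N → Bool)))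
    (fun _ a a' => {t | ∀ τ : List (Fin N → Bool), a = Encodable.encode τ →
      ∃ b, a' = Encodable.encode (τ ++ [b]) ∧ (t ∈ NS δ D m s N (τ ++ [b]) ∨
        ∀ t', le Γ (Set.Iio δ) t' t → t' ∉ NS δ D m s N τ)})
    (by
      intro _ a a' p hp q hq τ hτ
      obtain ⟨b, hb, h⟩ := hp τ hτ
      refine ⟨b, hb, ?_⟩
      rcases h with h | h
      · exact Or.inl (NS.op _ p h q hq)
      · exact Or.inr fun t' ht' => h t' (le_trans' hlow ht' hq))
    (by
      intro _ a p
      by_cases h : ∃ τ : List (Fin N → Bool), a = Encodable.encode τ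
      · obtain ⟨τ, hτ⟩ := h
        by_cases h1 : ∃ q, le Γ (Set.Iio δ) q p ∧ q ∈ NS δ D m s N τ
        · obtain ⟨q, hq, hq'⟩ := h1
          obtain ⟨q', h2, b, h3⟩ := NS.exists_succ hq'
          refine ⟨q', le_trans' hlow h2 hq, Encodable.encode (τ ++ [b]), fun τ' hτ' => ?_⟩
          obtain rfl := Encodable.encode_injective (hτ.symm.trans hτ')
          exact ⟨b, rfl, Or.inl h3⟩
        · refine ⟨p, le_refl' _ p, Encodable.encode (τ ++ [fun _ => false]), fun τ' hτ' => ?_⟩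
          obtain rfl := Encodable.encode_injective (hτ.symm.trans hτ')
          exact ⟨_, rfl, Or.inr fun t' ht' h2 => h1 ⟨t', ht', h2⟩⟩
      · exact ⟨p, le_refl' _ p, 0, fun τ hτ => absurd ⟨τ, hτ⟩ h⟩)
  -- the nodes on the branch
  have hbr : ∀ M q, le Γ (Set.Iio δ) q t → (∀ n < M + 1, ∃ a, q ∈ A.val n a) →
      ∃ τ : List (Fin N → Bool), q ∈ A.val M (Encodable.encode τ) ∧ τ.length = M ∧
        q ∈ NS δ D m s N τ ∧ ∀ n ≤ M, q ∈ A.val n (Encodable.encode (τ.take n)) := by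
    intro M
    induction M with
    | zero =>
      intro q hq _
      refine ⟨[], hA0 q, rfl, NS.op _ t h0 q hq, fun n hn => ?_⟩
      obtain rfl := Nat.le_zero.1 hn
      exact hA0 q
    | succ M ih =>
      intro q hq hd
      obtain ⟨τ, h1, h2, h3, h4⟩ := ih q hq fun n hn => hd n (by omega)
      obtain ⟨a, ha⟩ := hd (M + 1) (by omega)
      obtain ⟨b, hb, h5⟩ := hA M q _ a h1 ha τ rfl
      refine ⟨τ ++ [b], hb ▸ ha, by simp [h2], ?_, fun n hn => ?_⟩
      · rcases h5 with h5 | h5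
        · exact h5
        · exact absurd h3 (h5 q (le_refl' _ q))
      · rcases Nat.le_succ_iff.1 hn with hn' | rfl
        · rw [List.take_append_of_le_length (by omega)]
          exact h4 n hn'
        · rw [List.take_of_length_le (by simp [h2]), ← hb]
          exact ha
  -- the names of the reals on the branch
  let U : Fin N → ℕ → Set (Cond K I) := fun j n => {p | ∃ τ : List (Fin N → Bool),
    p ∈ A.val (n + 1) (Encodable.encode τ) ∧ ∃ h : n < τ.length, τ[n] j = true}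
  have hU : ∀ j n, Op Γ (Set.Iio δ) (U j n) := by
    rintro j n p ⟨τ, h1, h2⟩ q hq
    exact ⟨τ, A.op _ _ p h1 q hq, h2⟩
  have h1 : ∀ j, ∃ k, ∀ p, EqAt Γ (Set.Iio δ) p (ofSet (U j) (hU j) hlow).val
      (ofRaw (Γ := Γ) (Γ.e δ k) hlow).val := by
    intro j
    obtain ⟨x, hx, hx'⟩ := exists_raw hlow (U j) (hU j)
    obtain ⟨k, hk⟩ := he x hx
    exact ⟨k, hk ▸ hx'⟩
  choose F hF using h1
  obtain ⟨t', L0, Z, h2, h3, h4⟩ := hD m (upd t δ ⟨s, List.ofFn F⟩)
  obtain ⟨N0, hN0⟩ := exists_list_bound (fun c : Cond K I => len (c δ).stem) Z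
  obtain ⟨L1, hL1⟩ := exists_list_bound (fun c : Cond K I => Encodable.encode (c δ).stem) Z
  obtain ⟨L2, hL2⟩ := exists_list_bound (fun c : Cond K I => (c δ).pr.length + N) Z
  have h2' : le Γ (Set.Iio δ) t' t := le_congr hlow (fun _ _ => rfl)
    (fun i hi => upd_of_ne _ _ (ne_of_lt hi)) h2
  obtain ⟨t'', h5, h6⟩ := A.decide hlow hlow (Set.Subset.refl _) (N0 + 2) t'
  obtain ⟨τ, h7, h8, h9, h10⟩ := hbr (N0 + 1) t'' (le_trans' hlow h5 h2') h6
  apply h9 t'' (le_refl' _ t'') (max L0 (max L1 L2))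
  intro F' r hr hrt hdec y
  obtain ⟨t2, h11, c, hc, h12⟩ := h4 y r (le_trans' hlow hrt h5)
  have hcδ : (mix (Set.Iio δ) t' c) δ = c δ := mix_notMem _ _ (by simp)
  have h13 : ext Γ δ (mix (Set.Iio δ) t' c) (upd t δ ⟨s, List.ofFn F⟩) := h3 c hc δ (by simp)
  have hstem : s <+: (c δ).stem := by
    have := ext_stem h13
    rwa [hcδ, upd_same] at this
  let r' : Cond K I := upd (mix (Set.Iio δ) t2 c) δ ⟨(c δ).stem, (c δ).pr ++ List.ofFn F'⟩
  have hr'R : ∀ i ∈ Set.Iio δ, t2 i = r' i := by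
    intro i hi
    rw [upd_of_ne _ _ (ne_of_lt hi), mix_mem _ _ hi]
  have hr'δ : r' δ = ⟨(c δ).stem, (c δ).pr ++ List.ofFn F'⟩ := upd_same _ _ _
  have h14 : le Γ (Set.Iic δ) r' (mix (Set.Iio δ) t2 c) := by
    intro i hi
    rcases (Set.mem_Iic.1 hi).lt_or_eq with h | rfl
    · exact ext_congr i (fun _ _ => rfl) ((hr'R i h).symm.trans
        (mix_mem t2 c (show i ∈ Set.Iio δ from h)).symm) (ext_refl i r')
    · apply ext_same_stem
      · rw [hr'δ, mix_notMem _ _ (by simp)]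
      · rw [hr'δ, mix_notMem _ _ (by simp)]
        exact List.subset_append_left _ _
  have hr't2 : le Γ (Set.Iio δ) r' t2 := le_congr hlow hr'R (fun _ _ => rfl) (le_refl' _ t2)
  refine ⟨r', ?_, max (Encodable.encode (c δ).stem) ((c δ).pr.length + N), ?_, ?_, ?_⟩
  · intro i hi
    rcases (Set.mem_Iic.1 hi).lt_or_eq with h | rfl
    · exact le_trans' hlow hr't2 h11 i h
    · rw [ext_iff, hr, hr'δ]
      refine ⟨hstem, List.subset_append_right _ _, ?_⟩
      intro k hk t3 ht3 α ξ hα hξ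
      obtain ⟨j, rfl⟩ := List.mem_ofFn.1 hk
      have h15 : le Γ (Set.Iio i) t3 r := le_trans' hlow ht3 (le_trans' hlow hr't2 h11)
      -- extend `t3` so that it decides the real of the branch
      obtain ⟨t4, h16, h17⟩ := (ofRaw (Γ := Γ) (Γ.e i (F j)) hlow).decide hlow hlow
        (Set.Subset.refl _) (N0 + 1) t3
      choose! ξ' hξ' using h17
      have h18 : ∀ n, ∀ hn : n ≤ N0, ξ' n = τ[n] j := by
        intro n hn
        have h19 : t'' ∈ (ofSet (U j) (hU j) hlow).val n (τ[n] j) := by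
          have h20 := h10 (n + 1) (by omega)
          rcases Bool.eq_false_or_eq_true (τ[n] j) with h21 | h21
          · rw [h21, mem_ofSet_true]
            refine ⟨_, h20, by simp; omega, ?_⟩
            rw [List.getElem_take]
            exact h21
          · rw [h21, mem_ofSet_false]
            rintro u hu ⟨τ', h22, h23, h24⟩
            have h25 := A.uniq (n + 1) u _ _ (A.op _ _ t'' h20 u hu) h22
            obtain rfl := Encodable.encode_injective h25
            rw [List.getElem_take, h21] at h24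
            exact Bool.false_ne_true h24
        have h26 : le Γ (Set.Iio i) t4 t'' := le_trans' hlow h16 (le_trans' hlow h15 hrt)
        exact (hF j t4 t4 (le_refl' _ t4) n _ _ ((ofSet (U j) (hU j) hlow).op n _ t'' h19 t4 h26)
          (hξ' n (by omega))).symm
      have hlen : len (c i).stem ≤ N0 := hN0 c hc
      have h27 : newOK α ξ' s.length (c i).stem := by
        rw [ext_iff, hcδ, upd_same] at h13
        refine h13.2.2 (F j) (List.mem_ofFn.2 ⟨j, rfl⟩) t4 ?_ α ξ' ?_ ?_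
        · have h28 : le Γ (Set.Iio i) t4 t' :=
            le_trans' hlow h16 (le_trans' hlow h15 (le_trans' hlow hrt h5))
          exact le_congr hlow (fun _ _ => rfl) (fun i hi => (mix_mem _ _ hi).symm) h28
        · intro n hn
          exact (hα n hn).mono hlow h16
        · intro n hn
          exact hξ' n (by omega)
      refine newOK_congr (fun _ _ => rfl) (fun n hn => ?_) h27
      have hn' : n ≤ N0 := hn.trans hlen
      rw [h18 n hn']
      exact ((hdec n (by omega) j).mono hlow h15).unique (hξ n hn)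
  · exact max_le ((hL1 c hc).trans ((le_max_left _ _).trans (le_max_right _ _)))
      ((hL2 c hc).trans ((le_max_right _ _).trans (le_max_right _ _)))
  · refine ⟨?_, ?_⟩
    · rw [hr'δ]
      exact le_max_left _ _
    · rw [hr'δ]
      simp
  · exact D.mono _ _ _ _ (le_max_left _ _) (D.op _ _ _ _ h12 r' h14)

theorem stepDense_succ (hD : Tot (Set.Iio δ) D)
    (he : ∀ x : Nm K I, Supp (Set.Iio δ) x → ∃ k, Γ.e δ k = x) :
    StepDense (Set.Iio δ) (Qs δ) D := by
  intro i m t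
  have h1 : ∀ N p, ∃ q, le Γ (Set.Iio δ) q p ∧ ∃ v, q ∈ {q : Cond K I | ∀ k < i + 1,
      ∀ s : List (List Bool), Encodable.encode s = k → q ∈ SecL δ D m s N [] v} := by
    intro N p
    exact dense_fin (Γ := Γ) (lower_Iio δ)
      (fun k v => {q | ∀ s : List (List Bool), Encodable.encode s = k →
        q ∈ SecL δ D m s N [] v})
      (fun i v p hp q hq s hs => SecL.op _ _ p (hp s hs) q hq)
      (fun i v v' hv p hp s hs => SecL.mono _ hv (hp s hs)) p
      (fun k p hp => by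
        by_cases h : ∃ s : List (List Bool), Encodable.encode s = k
        · obtain ⟨s, hs⟩ := h
          obtain ⟨q, hq, L, hL⟩ := exists_secured hD he m s N p
          refine ⟨q, hq, L, fun s' hs' => ?_⟩
          rw [Encodable.encode_injective (hs'.trans hs.symm)]
          exact hL
        · exact ⟨p, le_refl' _ p, 0, fun s hs => absurd ⟨s, hs⟩ h⟩) (i + 1)
  obtain ⟨q, hq, v, hv⟩ := dense_fin (Γ := Γ) (lower_Iio δ)
    (fun N v => {q : Cond K I | ∀ k < i + 1,
      ∀ s : List (List Bool), Encodable.encode s = k → q ∈ SecL δ D m s N [] v})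
    (fun i v p hp q hq k hk s hs => SecL.op _ _ p (hp k hk s hs) q hq)
    (fun i v v' hv p hp k hk s hs => SecL.mono _ hv (hp k hk s hs)) t
    (fun N p _ => h1 N p) (i + 1)
  refine ⟨q, hq, v, fun r hr hrt y => ?_⟩
  have h2 := hv (r δ).pr.length (Nat.lt_succ_of_le hr.2) _ (Nat.lt_succ_of_le hr.1)
    (r δ).stem rfl
  refine h2 (r δ).pr.get r ?_ hrt (fun n hn => absurd hn (Nat.not_lt_zero n)) y
  rw [List.ofFn_get]

end Succ

end Pool.Agent.W684.BMA
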