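import Pool.Agent.W684.BMA.Capt
import Pool.Agent.W684.FM.Ambient

/-!
# Captured families are small
-/

set_option autoImplicit false
set_option linter.unusedSectionVars false

namespace Pool.Agent.W684.BMA

open Classical Cardinal Pool.Agent.Helper669.Forcing

/-! ### A closure point of uncountable cofinality -/

theorem exists_closing {K I : Type} [Infinite K] [LinearOrder I] [WellFoundedLT I] [Nonempty I]
    (hI : FM.Bdd K I) (hIio : ∀ δ : I, #(Set.Iio δ) ≤ #K) (hK : ℵ₁ ≤ #K) (F : I → I) :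
    ∃ α : I, (∀ β < α, F β < α) ∧ CB (Set.Iio α) := by
  have h1 : ∀ (w : FM.Om1) (g : {v : FM.Om1 // v < w} → I), ∃ δ : I,
      (∀ v, g v < δ) ∧ ∀ v, ∀ β ≤ g v, F β < δ := by
    intro w g
    have hw : #{v : FM.Om1 // v < w} ≤ #K := by
      refine (Cardinal.mk_subtype_le _).trans ?_
      rw [Cardinal.mk_ord_toType]
      exact hK
    obtain ⟨δ, hδ⟩ := hI (Set.range g ∪ ⋃ v, F '' (Set.Iic (g v))) (by
      refine (Cardinal.mk_union_le _ _).trans ?_
      have h2 : #(Set.range g) ≤ #K := Cardinal.mk_range_le.trans hw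
      have h3 : #(⋃ v, F '' (Set.Iic (g v)) : Set I) ≤ #K := by
        refine (Cardinal.mk_iUnion_le _).trans ?_
        calc #{v : FM.Om1 // v < w} * _ ≤ #K * #K := by
              apply mul_le_mul' hw
              apply ciSup_le'
              intro v
              refine Cardinal.mk_image_le.trans ?_
              have h4 : Set.Iic (g v) = insert (g v) (Set.Iio (g v)) := by
                ext i
                simp [le_iff_eq_or_lt]
              rw [h4]
              refine Cardinal.mk_insert_le.trans ?_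
              calc #(Set.Iio (g v)) + 1 ≤ #K + #K := add_le_add (hIio _)
                    (Cardinal.one_le_aleph0.trans (Cardinal.aleph0_le_mk K))
                _ = #K := Cardinal.add_eq_self (Cardinal.aleph0_le_mk K)
          _ = #K := Cardinal.mul_eq_self (Cardinal.aleph0_le_mk K)
      calc _ ≤ #K + #K := add_le_add h2 h3
        _ = #K := Cardinal.add_eq_self (Cardinal.aleph0_le_mk K))
    refine ⟨δ, fun v => hδ _ (Or.inl ⟨v, rfl⟩), fun v β hβ => hδ _ (Or.inr ?_)⟩
    rw [Set.mem_iUnion]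
    exact ⟨v, β, hβ, rfl⟩
  choose G hG1 hG2 using h1
  let f : FM.Om1 → I := WellFounded.fix (wellFounded_lt (α := FM.Om1))
    fun w g => G w fun v => g v.1 v.2
  have hf : ∀ w, f w = G w fun v => f v.1 := by
    intro w
    exact WellFounded.fix_eq _ _ w
  have hf1 : ∀ v w, v < w → f v < f w := by
    intro v w hvw
    rw [hf w]
    exact hG1 w (fun v => f v.1) ⟨v, hvw⟩
  have hf2 : ∀ v w, v < w → ∀ β ≤ f v, F β < f w := by
    intro v w hvw β hβ
    rw [hf w]
    exact hG2 w (fun v => f v.1) ⟨v, hvw⟩ β hβ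
  obtain ⟨α, hα, hmin⟩ := WellFounded.has_min (wellFounded_lt (α := I)) {δ | ∀ w, f w < δ} (by
    obtain ⟨δ, hδ⟩ := hI (Set.range f) (Cardinal.mk_range_le.trans (by
      rw [Cardinal.mk_ord_toType]
      exact hK))
    exact ⟨δ, fun w => hδ _ ⟨w, rfl⟩⟩)
  have hcof : ∀ β < α, ∃ w, β ≤ f w := by
    intro β hβ
    by_contra hcon
    push Not at hcon
    exact hmin β hcon hβ
  refine ⟨α, fun β hβ => ?_, fun C hC hCα => ?_⟩
  · obtain ⟨w, hw⟩ := hcof β hβ
    obtain ⟨w', hw'⟩ := FM.exists_gt_om1 w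
    exact (hf2 w w' hw' β hw).trans (hα w')
  · rcases C.eq_empty_or_nonempty with rfl | hne
    · obtain ⟨w⟩ : Nonempty FM.Om1 := by
        rw [← Cardinal.mk_ne_zero_iff, Cardinal.mk_ord_toType]
        exact (Cardinal.aleph_pos 1).ne'
      exact ⟨f w, hα w, fun i hi => absurd hi (Set.notMem_empty i)⟩
    · obtain ⟨c, hc⟩ := hC.exists_eq_range hne
      have h2 : ∀ n, ∃ w, c n ≤ f w := fun n => hcof _ (hCα (hc ▸ ⟨n, rfl⟩))
      choose w hw using h2
      obtain ⟨a, ha⟩ := FM.exists_bound w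
      obtain ⟨b, hb⟩ := FM.exists_gt_om1 a
      refine ⟨f b, hα b, fun i hi => ?_⟩
      rw [hc] at hi
      obtain ⟨n, rfl⟩ := hi
      exact (hw n).trans_lt (hf1 _ _ ((ha n).trans_lt hb))

variable {K I : Type} [LinearOrder I] [WellFoundedLT I] {Γ : Par K I}

/-- supports of families of raw names are bounded -/
theorem exists_supp [Infinite K] (hI : FM.Bdd K I) {J : Type} (hJ : #J ≤ #K)
    (x : J → Nm K I) : ∃ δ, ∀ β, δ ≤ β → ∀ k, Supp (Set.Iio β) (x k) := by
  obtain ⟨δ, hδ⟩ := hI (⋃ k, ⋃ n, ⋃ m, {i | ∃ u, x k n m = some u ∧ u i ≠ CV.top}) (by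
    refine (Cardinal.mk_iUnion_le _).trans ?_
    calc #J * _ ≤ #K * ℵ₀ := by
          apply mul_le_mul' hJ
          apply ciSup_le'
          intro k
          rw [Cardinal.le_aleph0_iff_set_countable]
          apply Set.countable_iUnion
          intro n
          apply Set.countable_iUnion
          intro m
          rcases h : x k n m with _ | u
          · simp
          · refine (u.2.countable).mono ?_
            rintro i ⟨v, hv, hvi⟩
            rw [Option.some_inj] at hv
            subst hv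
            exact hvi
      _ ≤ #K := (Cardinal.mul_eq_left (Cardinal.aleph0_le_mk K) (Cardinal.aleph0_le_mk K)
          Cardinal.aleph0_ne_zero).le)
  refine ⟨δ, fun β hβ k n m u hu i hi => ?_⟩
  by_contra hcon
  apply hi
  refine (hδ i ?_).trans_le hβ
  rw [Set.mem_iUnion]
  refine ⟨k, ?_⟩
  rw [Set.mem_iUnion]
  refine ⟨n, ?_⟩
  rw [Set.mem_iUnion]
  exact ⟨m, u, hu, hcon⟩

theorem Supp.mono {S T : Set I} (h : S ⊆ T) {x : Nm K I} (hx : Supp S x) : Supp T x :=
  fun n m u hu i hi => hx n m u hu i fun h' => hi (h h')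

theorem Supp.of_CB {T : Set I} (hT : CB T) {x : Nm K I} (hx : Supp T x) :
    ∃ δ ∈ T, Supp (Set.Iio δ) x := by
  obtain ⟨δ, hδ, h⟩ := hT (⋃ n, ⋃ m, {i | ∃ u, x n m = some u ∧ u i ≠ CV.top}) (by
    apply Set.countable_iUnion
    intro n
    apply Set.countable_iUnion
    intro m
    rcases h : x n m with _ | u
    · simp
    · refine (u.2.countable).mono ?_
      rintro i ⟨v, hv, hvi⟩
      rw [Option.some_inj] at hv
      subst hv
      exact hvi) (by
    intro i hi
    rw [Set.mem_iUnion] at hi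
    obtain ⟨n, hi⟩ := hi
    rw [Set.mem_iUnion] at hi
    obtain ⟨m, u, hu, hui⟩ := hi
    by_contra hcon
    exact hui (hx n m u hu i hcon))
  refine ⟨δ, hδ, fun n m u hu i hi => ?_⟩
  by_contra hcon
  apply hi
  apply h i
  rw [Set.mem_iUnion]
  refine ⟨n, ?_⟩
  rw [Set.mem_iUnion]
  exact ⟨m, u, hu, hcon⟩

/-- the name given by a raw name -/
def nameOf (Γ : Par K I) (a : Nm K I) (n : ℕ) : Set (PP Γ) :=
  {p : Cond K I | Bit (le Γ Set.univ) p a n true}

theorem mem_nameOf {a : Nm K I} {n : ℕ} {p : PP Γ} :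
    p ∈ nameOf Γ a n ↔ Bit (le Γ Set.univ) p a n true := Iff.rfl

theorem down_nameOf (a : Nm K I) (n : ℕ) : Down (nameOf Γ a n) :=
  fun _ hp _ hq => mem_nameOf.2 (Bit.mono isLowerSet_univ (mem_nameOf.1 hp) hq)

theorem rep_nameOf (a : Nm K I) : Rep Γ a (nameOf Γ a) := by
  refine ⟨fun n p hp => meets_of_mem (P := PP Γ) hp, fun n p hp q hq hqn => ?_⟩
  obtain ⟨r, hr, hr'⟩ := mem_meets_of_down (down_nameOf a n) hqn
  have h1 := Bit.unique (hp.mono isLowerSet_univ (le_trans' isLowerSet_univ hr hq))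
    (mem_nameOf.1 hr')
  exact Bool.false_ne_true h1

theorem Rep.iff_meets {x : Nm K I} {M N : ℕ → Set (PP Γ)} (h : Rep Γ x M) (h' : Rep Γ x N)
    (n : ℕ) (p : PP Γ) : p ∈ meets (M n) ↔ p ∈ meets (N n) := by
  have key : ∀ {M N : ℕ → Set (PP Γ)}, Rep Γ x M → Rep Γ x N → p ∈ meets (M n) →
      p ∈ meets (N n) := by
    intro M N h h' hp
    refine FM.meets_of_dense (P := PP Γ) fun q hq => ?_
    obtain ⟨r, hr, b, hb⟩ := Bit.dense (Γ := Γ) (T := Set.univ) q x n
    refine ⟨r, hr, (h'.true_iff hb).2 ((h.true_iff hb).1 ?_)⟩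
    exact down_meets _ _ hp _ (le_trans' isLowerSet_univ hr hq)
  exact ⟨key h h', key h' h⟩

end Pool.Agent.W684.BMA
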