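import Pool.Agent.W684.BMA.Few

/-!
# Captured families are small (continued)
-/

set_option autoImplicit false
set_option linter.unusedSectionVars false

namespace Pool.Agent.W684.BMA

open Classical Cardinal Pool.Agent.Helper669.Forcing

variable {K I : Type} [LinearOrder I] [WellFoundedLT I] {Γ : Par K I} {S : Set I}

/-- the enumeration of a set of natural numbers -/
theorem exists_enum (hS : IsLowerSet S) (b : Nm K I) : ∃ B : VN Γ S ℕ, Incr B ∧
    ∀ l t a a', t ∈ B.val l a → t ∈ B.val (l + 1) a' →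
      (Bit (le Γ S) t b a' true ∧ ∀ c, a < c → c < a' → Bit (le Γ S) t b c false) ∨
        ∀ c, a < c → Bit (le Γ S) t b c false := by
  obtain ⟨B, -, hB⟩ := exists_rec (Γ := Γ) hS 0
    (fun _ a a' => {t | a < a' ∧
      ((Bit (le Γ S) t b a' true ∧ ∀ c, a < c → c < a' → Bit (le Γ S) t b c false) ∨
        ∀ c, a < c → Bit (le Γ S) t b c false)})
    (by
      rintro _ a a' t ⟨h1, h2⟩ t' ht'
      refine ⟨h1, ?_⟩
      rcases h2 with ⟨h2, h3⟩ | h2
      · exact Or.inl ⟨h2.mono hS ht', fun c hc hc' => (h3 c hc hc').mono hS ht'⟩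
      · exact Or.inr fun c hc => (h2 c hc).mono hS ht')
    (by
      intro _ a p
      by_cases h : ∃ q, le Γ S q p ∧ ∃ c, a < c ∧ Bit (le Γ S) q b c true
      · obtain ⟨q, hq, c, hc, hbc⟩ := h
        obtain ⟨q', hq', hd⟩ := (ofRaw (Γ := Γ) b hS).decide hS hS (Set.Subset.refl _) (c + 1) q
        choose! v hv using hd
        have hvc : v c = true := (hv c (by omega)).unique (hbc.mono hS hq')
        have hex : ∃ n, a < n ∧ v n = true := ⟨c, hc, hvc⟩
        have h1 := Nat.find_spec hex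
        have hle : Nat.find hex ≤ c := Nat.find_min' hex ⟨hc, hvc⟩
        refine ⟨q', le_trans' hS hq' hq, Nat.find hex, h1.1, Or.inl ⟨?_, ?_⟩⟩
        · have h2 := hv _ (Nat.lt_succ_of_le hle)
          rw [h1.2] at h2
          exact h2
        · intro d hd hd'
          have h2 := hv d (by omega)
          have h3 : v d = false := by
            have := Nat.find_min hex hd'
            push Not at this
            simpa using this hd
          rw [h3] at h2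
          exact h2
      · refine ⟨p, le_refl' _ p, a + 1, Nat.lt_succ_self a, Or.inr fun c hc => bit_false.2 ?_⟩
        intro t' ht' m u hu hle
        exact h ⟨t', ht', c, hc, bit_true.2 ⟨m, u, hu, hle⟩⟩)
  exact ⟨B, fun n p a a' h h' => (hB n p a a' h h').1, fun l t a a' h h' => (hB l t a a' h h').2⟩

/-- a raw name for the range of a function -/
theorem exists_range (hS : IsLowerSet S) (A : VN Γ S ℕ) : ∃ a : Nm K I, Supp S a ∧
    (∀ t l n v, t ∈ A.val l n → Bit (le Γ S) t a n v → v = true) ∧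
    ∀ t n, Bit (le Γ S) t a n true → ∃ t', le Γ S t' t ∧ ∃ l, t' ∈ A.val l n := by
  obtain ⟨a, ha, h⟩ := exists_raw (Γ := Γ) hS (fun n => {t | ∃ l, t ∈ A.val l n}) (by
    rintro n t ⟨l, hl⟩ t' ht'
    exact ⟨l, A.op _ _ t hl t' ht'⟩)
  refine ⟨a, ha, fun t l n v h1 h2 => ?_, fun t n h1 => ?_⟩
  · exact (h t t (le_refl' _ t) n true v (mem_ofSet_true.2 ⟨l, h1⟩) h2).symm
  · by_contra hcon
    have h2 := h t t (le_refl' _ t) n false true
      (mem_ofSet_false.2 fun t' ht' ⟨l, hl⟩ => hcon ⟨t', ht', l, hl⟩) h1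
    exact Bool.false_ne_true h2

theorem few_aux (hΓ : Full Γ) (hS : IsLowerSet S) (x : ℕ → Set (PP Γ)) (q0 : PP Γ)
    (hclosed : ∀ a : Nm K I, Supp S a → ∀ r : PP Γ, r ≤ q0 → r ∈ InfN (nameOf Γ a) →
      ∃ r' : PP Γ, r' ≤ r ∧ ∃ b y : Nm K I, Supp S b ∧ Supp S y ∧ r' ∈ InfN (nameOf Γ b) ∧
        r' ∈ CapturedN (nameOf Γ a) (nameOf Γ b) (nameOf Γ y) x) :
    ∃ q : Cond K I, le Γ Set.univ q q0 ∧ ∃ z : VN Γ S Bool, EqAt Γ Set.univ q
      (ofSet (Γ := Γ) (fun n => (meets (x n) : Set (PP Γ)))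
        (fun n => op_of_down (down_meets _)) isLowerSet_univ).val z.val := by
  have hU := isLowerSet_univ (α := I)
  have hSU := Set.subset_univ S
  rcases dich hΓ hS Set.univ hU hSU (ofSet (Γ := Γ) (fun n => (meets (x n) : Set (PP Γ)))
      (fun n => op_of_down (down_meets _)) isLowerSet_univ) q0 with h | ⟨q1, hq1, A, hA, h⟩
  · exact h
  exfalso
  obtain ⟨a, haS, ha1, ha2⟩ := exists_range hS A
  have hup : ∀ {w : Nm K I}, Supp S w → ∀ {t : Cond K I} {n : ℕ} {b : Bool},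
      Bit (le Γ S) t w n b → Bit (le Γ Set.univ) t w n b := fun hw _ _ _ hb =>
    (Bit.iff_of_supp hS hSU hw).2 hb
  have hdn : ∀ {w : Nm K I}, Supp S w → ∀ {t : Cond K I} {n : ℕ} {b : Bool},
      Bit (le Γ Set.univ) t w n b → Bit (le Γ S) t w n b := fun hw _ _ _ hb =>
    (Bit.iff_of_supp hS hSU hw).1 hb
  -- a value of `A` belongs to the range
  have hrange : ∀ (t : PP Γ) l n, t ∈ A.val l n → t ∈ meets (nameOf Γ a n) := by
    intro t l n ht
    refine FM.meets_of_dense (P := PP Γ) fun q hq => ?_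
    obtain ⟨r, hr, b, hb⟩ := Bit.dense (Γ := Γ) (T := Set.univ) q a n
    have h1 : b = true := ha1 r l n b
      (A.op _ _ t ht r (le_mono hSU (le_trans' hU hr hq))) (hdn haS hb)
    subst h1
    exact ⟨r, hr, meets_of_mem (P := PP Γ) hb⟩
  have hrange' : ∀ (t : PP Γ) n, t ∈ meets (nameOf Γ a n) → ∃ t' : PP Γ, t' ≤ t ∧
      ∃ l, t' ∈ A.val l n := by
    intro t n ht
    obtain ⟨r, hr, hr'⟩ := mem_meets_of_down (down_nameOf a n) ht
    obtain ⟨t', ht', l, hl⟩ := ha2 r n (hdn haS hr')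
    refine ⟨mix S t' r, le_trans' hU (mix_le hS ht') hr, l, A.op _ _ t' hl _ ?_⟩
    exact le_of_eq hS fun i hi => mix_mem _ _ hi
  have hInf : (q1 : PP Γ) ∈ InfN (nameOf Γ a) := by
    intro m
    refine mem_fex.2 fun r hr => ?_
    obtain ⟨r', hr', n, hn⟩ := A.dense_up (T := Set.univ) hS m r
    exact ⟨r', hr', n, hA.ge hS hn, hrange r' m n hn⟩
  obtain ⟨r', hr', b, y, hbS, hyS, hbInf, hcap⟩ := hclosed a haS q1 hq1 hInf
  obtain ⟨B, hB, hBenum⟩ := exists_enum (Γ := Γ) hS b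
  obtain ⟨s1, hs1, N0, hs1N⟩ := mem_fex.1 hcap r' le_rfl
  obtain ⟨s2, hs2, k, hk, b0, b1, κ, a0, hb0, hb1, ha0, ha0b, hbad⟩ :=
    h B hB (ofRaw (Γ := Γ) y hS) (max N0 1) s1 (le_trans' hU hs1 hr')
  have hkN : N0 ≤ k := (le_max_left _ _).trans hk
  obtain ⟨k', rfl⟩ : ∃ k', k = k' + 1 := ⟨k - 1, by
    have := (le_max_right N0 1).trans hk
    omega⟩
  obtain ⟨s3, hs3, bm, hbm⟩ := B.dense_up (T := Set.univ) hS k' s2
  have hs3b0 := B.op _ _ s2 hb0 s3 (le_mono hSU hs3)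
  have hs3b1 := B.op _ _ s2 hb1 s3 (le_mono hSU hs3)
  have hs32 : le Γ Set.univ s3 s2 := hs3
  have hs3r : le Γ Set.univ s3 r' := le_trans' hU hs3 (le_trans' hU hs2 hs1)
  have hnotend : ∀ c0, ¬ ∀ c, c0 < c → Bit (le Γ S) s3 b c false := by
    intro c0 hc0
    obtain ⟨t, ht, c, hc, htc⟩ := mem_fex.1 (hbInf (c0 + 1)) s3 hs3r
    have h1 : Bit (le Γ Set.univ) t b c false :=
      (hup hbS (hc0 c hc)).mono hU ht
    exact (rep_nameOf (Γ := Γ) b).2 c t h1 t (le_refl' _ t) htc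
  have hB0 : Bit (le Γ S) s3 b b0 true := by
    rcases hBenum k' s3 bm b0 hbm hs3b0 with h1 | h1
    · exact h1.1
    · exact absurd h1 (hnotend bm)
  have hB1 : Bit (le Γ S) s3 b b1 true := by
    rcases hBenum (k' + 1) s3 b0 b1 hs3b0 hs3b1 with h1 | h1
    · exact h1.1
    · exact absurd h1 (hnotend b0)
  have hb01 : b0 < b1 := hB _ s3 _ _ hs3b0 hs3b1
  have hk0 : k' + 1 ≤ b0 := hB.ge hS hs3b0
  -- use that `x` is captured
  obtain ⟨s4, hs4, hs4'⟩ := mem_fimp.1 (hs1N b0) s3 (le_trans' hU hs3 hs2)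
    (show N0 ≤ b0 by omega)
  obtain ⟨s5, hs5, hs5'⟩ := mem_fimp.1 hs4' s4 le_rfl
    (down_meets (P := PP Γ) _ _ ((rep_nameOf (Γ := Γ) b).1 b0 s3 (hup hbS hB0)) s4 hs4)
  obtain ⟨s6, hs6, c, hs6'⟩ := mem_fex.1 hs5' s5 le_rfl
  obtain ⟨s7, hs7, c', hbc, hnext, hs7b, hs7x⟩ := mem_fex.1 hs6' s6 le_rfl
  have hs73 : le Γ Set.univ s7 s3 :=
    le_trans' hU hs7 (le_trans' hU hs6 (le_trans' hU hs5 hs4))
  have hbc' : b0 ≤ c := hbc
  have hcc' : c < c' := hnext.1
  have hc'b1 : c' ≤ b1 := by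
    obtain ⟨t, ht, h1⟩ := mem_fimp.1 (hs7b b1) s7 le_rfl
      (down_meets (P := PP Γ) _ _ ((rep_nameOf (Γ := Γ) b).1 b1 s3 (hup hbS hB1)) s7 hs73)
    have h2 : b1 ≤ b0 ∨ c' ≤ b1 := h1
    omega
  obtain ⟨s8, hs8, l', hl'⟩ := hrange' s7 c hnext.2.1
  obtain ⟨s9, hs9, l'', hl''⟩ := hrange' s8 c' (down_meets _ _ hnext.2.2.1 s8 hs8)
  obtain ⟨s10, hs10, c'', hc''⟩ := A.dense_up (T := Set.univ) hS (l' + 1) s9
  have hs108 : le Γ Set.univ s10 s8 := le_trans' hU hs10 hs9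
  have h10l' : s10 ∈ A.val l' c := A.op _ _ s8 hl' s10 (le_mono hSU hs108)
  have h10l'' : s10 ∈ A.val l'' c' := A.op _ _ s9 hl'' s10 (le_mono hSU hs10)
  have hlt : l' < l'' := by
    by_contra hcon
    have := hA.le_of_le hS (not_lt.1 hcon) h10l'' h10l'
    omega
  have hc''1 : c'' ≤ c' := hA.le_of_le hS hlt hc'' h10l''
  have hc''2 : c < c'' := hA _ s10 _ _ h10l' hc''
  have hc''3 : c'' = c' := by
    obtain ⟨t, ht, h1⟩ := mem_fimp.1 (hnext.2.2.2 c'') s10 (le_trans' hU hs108 hs8)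
      (hrange s10 (l' + 1) c'' hc'')
    have h2 : c'' ≤ c ∨ c' ≤ c'' := h1
    omega
  rw [hc''3] at hc''
  have hs102 : le Γ Set.univ s10 s2 :=
    le_trans' hU hs108 (le_trans' hU hs8 (le_trans' hU hs73 hs32))
  have hκ : κ ≤ l' := by
    by_contra hcon
    have := hA.lt hS (not_le.1 hcon) h10l' (A.op _ _ s2 ha0 s10 (le_mono hSU hs102))
    omega
  have hl'b : l' ≤ b1 := by
    have := hA.ge hS h10l'
    omega
  obtain ⟨d, d', h1, h2, n, hn1, hn2, v, hv1, hv2⟩ := hbad l' hκ hl'b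
  have hdc : d = c := A.uniq _ s10 _ _ (A.op _ _ s2 h1 s10 (le_mono hSU hs102)) h10l'
  have hdc' : d' = c' := A.uniq _ s10 _ _ (A.op _ _ s2 h2 s10 (le_mono hSU hs102)) hc''
  subst hdc hdc'
  have hs107 : @LE.le (PP Γ) _ s10 s7 := le_trans' hU hs108 hs8
  obtain ⟨s11, hs11, hiff⟩ := mem_fimp.1 (hs7x n) s10 hs107 ⟨hn1, hn2⟩
  have hs112 : le Γ Set.univ s11 s2 := le_trans' hU hs11 hs102
  have hyb : Bit (le Γ Set.univ) s11 y n v := (hup hyS hv2).mono hU hs112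
  rcases Bool.eq_false_or_eq_true v with rfl | rfl
  · obtain ⟨t, ht, ht'⟩ := mem_fimp.1 hiff.2 s11 (le_refl' _ s11) ((rep_nameOf (Γ := Γ) y).1 n s11 hyb)
    exact hv1 t (le_trans' hU ht hs112) (mem_ofSet_true.2 ht')
  · have h3 := hv1 s11 hs112
    rw [mem_ofSet_false] at h3
    push Not at h3
    obtain ⟨t, ht, ht'⟩ := h3
    obtain ⟨t', ht1, ht2⟩ := mem_fimp.1 hiff.1 t ht ht'
    exact (rep_nameOf (Γ := Γ) y).2 n s11 hyb t' (le_trans' hU ht1 ht) ht2

theorem InfN_congr {M N : ℕ → Set (PP Γ)} (h : ∀ n, meets (M n) = meets (N n)) :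
    InfN M = InfN N := by
  unfold InfN
  simp only [h]

theorem CapturedN_congr {A A' B B' y y' x : ℕ → Set (PP Γ)}
    (hA : ∀ n, meets (A n) = meets (A' n)) (hB : ∀ n, meets (B n) = meets (B' n))
    (hy : ∀ n, meets (y n) = meets (y' n)) : CapturedN A B y x = CapturedN A' B' y' x := by
  unfold CapturedN NextN
  simp only [hA, hB, hy]

theorem Rep.meets_eq {x : Nm K I} {M : ℕ → Set (PP Γ)} (h : Rep Γ x M) (n : ℕ) :
    meets (M n) = meets (nameOf Γ x n) :=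
  Set.ext fun p => h.iff_meets (rep_nameOf x) n p

/-- a real name is equal to a raw name -/
theorem VN.exists_raw (hS : IsLowerSet S) (z : VN Γ S Bool) :
    ∃ w : Nm K I, Supp S w ∧ ∀ p, EqAt Γ S p z.val (ofRaw (Γ := Γ) w hS).val := by
  obtain ⟨w, hw, h⟩ := BMA.exists_raw (Γ := Γ) hS (fun n => z.val n true) fun n => z.op n true
  refine ⟨w, hw, fun p => ?_⟩
  refine EqAt.trans hS z.op (ofRaw (Γ := Γ) w hS).op (ofSet (fun n => z.val n true)
    (fun n => z.op n true) hS).dense ?_ (h p)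
  intro q _ n v v' h1 h2
  rcases Bool.eq_false_or_eq_true v with rfl | rfl <;>
    rcases Bool.eq_false_or_eq_true v' with rfl | rfl
  · rfl
  · exact absurd h1 (mem_ofSet_false.1 h2 q (le_refl' _ q))
  · exact z.uniq n q _ _ h1 (mem_ofSet_true.1 h2)
  · rfl

theorem mem_captured_of_dense {A B y x : ℕ → Set (PP Γ)} {p : PP Γ}
    (h : ∀ q ≤ p, ∃ r ≤ q, r ∈ CapturedN A B y x) : p ∈ CapturedN A B y x := by
  refine mem_fex.2 fun q hq => ?_
  obtain ⟨r, hr, hr'⟩ := h q hq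
  obtain ⟨s, hs, N, hN⟩ := mem_fex.1 hr' r le_rfl
  exact ⟨s, hs.trans hr, N, hN⟩

theorem fewCapturedN [Infinite K] [Nonempty I] (hΓ : Full Γ) (hI : FM.Bdd K I)
    (hIio : ∀ δ : I, #(Set.Iio δ) ≤ #K) (hK : #K ^ ℵ₀ = #K) (hK1 : ℵ₁ ≤ #K) (hIK : #K < #I)
    (p : PP Γ) : p ∈ FewCapturedN (PP Γ) I := by
  have hU := isLowerSet_univ (α := I)
  intro x
  refine mem_fimp.2 fun q _ hq => ?_
  by_contra hcon
  push Not at hcon
  have h1 := hcon q le_rfl
  rw [mem_fex] at h1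
  push Not at h1
  obtain ⟨q0, hq0, h2⟩ := h1
  -- every partition below `q0` is handled
  have hstar : ∀ r : PP Γ, r ≤ q0 → ∀ A : ℕ → Set (PP Γ), r ∈ InfN A →
      ∃ q' : PP Γ, q' ≤ r ∧ ∃ B y : ℕ → Set (PP Γ), q' ∈ InfN B ∧
        ∀ l, q' ∈ CapturedN A B y (x l) := by
    intro r hr A hA
    have h3 := h2 r hr A
    rw [mem_fand, not_and] at h3
    have h4 := h3 hA
    simp only [mem_fall, not_forall] at h4
    obtain ⟨B, y, h5⟩ := h4
    rw [mem_fimp] at h5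
    push Not at h5
    obtain ⟨q', hq', hB, h6⟩ := h5
    refine ⟨q', hq', B, y, hB, fun l => mem_captured_of_dense fun q'' hq'' => ?_⟩
    by_contra h7
    push Not at h7
    exact h6 q'' hq'' (mem_fex_of_mem l (down_fnot _) fun s hs => h7 s hs)
  -- the sets of the conditions which handle a partition given by a raw name
  let W : Nm K I → Set (Cond K I) := fun a => {c : PP Γ | c ≤ q0 ∧ ∃ b y : Nm K I,
    c ∈ InfN (nameOf Γ b) ∧ ∀ l, c ∈ CapturedN (nameOf Γ a) (nameOf Γ b) (nameOf Γ y) (x l)}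
  have hW : ∀ a, ∃ C : Set (Cond K I), C.Countable ∧ C ⊆ W a ∧
      ∀ p ∈ W a, ∃ c ∈ C, ∃ r, le Γ Set.univ r p ∧ le Γ Set.univ r c := fun a =>
    exists_predense (W a)
  choose C hC hCW hCd using hW
  have h3 : ∀ (a : Nm K I) (c : C a), ∃ b y : Nm K I,
      (c.1 : PP Γ) ∈ InfN (nameOf Γ b) ∧
      ∀ l, (c.1 : PP Γ) ∈ CapturedN (nameOf Γ a) (nameOf Γ b) (nameOf Γ y) (x l) :=
    fun a c => (hCW a c.2).2
  choose b y hb hy using h3
  have h4 : ∀ β : I, ∃ δ, ∀ a : Nm K I, Supp (Set.Iio β) a → ∀ c : C a,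
      Supp (Set.Iio δ) (b a c) ∧ Supp (Set.Iio δ) (y a c) := by
    intro β
    obtain ⟨δ, hδ⟩ := exists_supp hI
      (J := (Σ a : {a : Nm K I // Supp (Set.Iio β) a}, (C a.1 : Type)) × Bool) (by
        rw [Cardinal.mk_prod, Cardinal.lift_id, Cardinal.lift_id, Cardinal.mk_sigma]
        calc (Cardinal.sum fun a : {a : Nm K I // Supp (Set.Iio β) a} => #(C a.1)) * #Bool
            ≤ (#K * ℵ₀) * #K := by
              apply mul_le_mul'
              · refine (Cardinal.sum_le_sum _ (fun _ => ℵ₀)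
                  fun (a : {a : Nm K I // Supp (Set.Iio β) a}) => (hC a.1).le_aleph0).trans ?_
                rw [Cardinal.sum_const']
                exact mul_le_mul' (mk_supp hK _ (hIio β)) le_rfl
              · exact (Cardinal.lt_aleph0_of_finite _).le.trans (Cardinal.aleph0_le_mk K)
          _ = #K := by
              rw [Cardinal.mul_eq_left (Cardinal.aleph0_le_mk K) (Cardinal.aleph0_le_mk K)
                Cardinal.aleph0_ne_zero, Cardinal.mul_eq_self (Cardinal.aleph0_le_mk K)])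
      (fun k => if k.2 = true then b k.1.1.1 k.1.2 else y k.1.1.1 k.1.2)
    refine ⟨δ, fun a ha c => ⟨?_, ?_⟩⟩
    · have := hδ δ le_rfl (⟨⟨a, ha⟩, c⟩, true)
      simpa using this
    · have := hδ δ le_rfl (⟨⟨a, ha⟩, c⟩, false)
      simpa using this
  choose F hF using h4
  obtain ⟨α, hα, hCB⟩ := exists_closing hI hIio hK1 F
  have hlow := lower_Iio α
  -- every `x l` has a name at stage `α`, below some condition
  have h5 : ∀ l, ∃ q1 : PP Γ, q1 ≤ q0 ∧ ∃ w : {w : Nm K I // Supp (Set.Iio α) w},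
      EqAt Γ Set.univ q1 (ofSet (Γ := Γ) (fun n => (meets (x l n) : Set (PP Γ)))
        (fun n => op_of_down (down_meets _)) isLowerSet_univ).val
        (ofRaw (Γ := Γ) w.1 hlow).val := by
    intro l
    obtain ⟨q1, hq1, z, hz⟩ := few_aux hΓ hlow (x l) q0 (by
      intro a ha r hr hra
      obtain ⟨q', hq', B, Y, hB, hcap⟩ := hstar r hr (nameOf Γ a) hra
      obtain ⟨b', hb'⟩ := exists_raw_name B
      obtain ⟨y', hy'⟩ := exists_raw_name Y
      have hb'' : Rep Γ b' B := hb'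
      have hy'' : Rep Γ y' Y := hy'
      have h6 : q' ∈ W a := by
        refine ⟨hq'.trans hr, b', y', ?_, fun l => ?_⟩
        · rw [← InfN_congr hb''.meets_eq]
          exact hB
        · rw [← CapturedN_congr (fun _ => rfl) hb''.meets_eq hy''.meets_eq]
          exact hcap l
      obtain ⟨c, hc, r', hr'1, hr'2⟩ := hCd a q' h6
      obtain ⟨δ, hδ, haδ⟩ := ha.of_CB hCB
      obtain ⟨h7, h8⟩ := hF δ a haδ ⟨c, hc⟩
      have h9 : Set.Iio (F δ) ⊆ Set.Iio α := fun i hi => (hi : i < F δ).trans (hα δ hδ)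
      exact ⟨r', le_trans' hU hr'1 hq', b a ⟨c, hc⟩, y a ⟨c, hc⟩, h7.mono h9, h8.mono h9,
        down_InfN _ _ (hb a ⟨c, hc⟩) r' hr'2, down_CapturedN _ _ _ _ _ (hy a ⟨c, hc⟩ l) r' hr'2⟩)
    obtain ⟨w, hw, h6⟩ := z.exists_raw hlow
    refine ⟨q1, hq1, ⟨w, hw⟩, ?_⟩
    exact EqAt.trans hU (ofSet (Γ := Γ) (fun n => (meets (x l n) : Set (PP Γ)))
      (fun n => op_of_down (down_meets _)) isLowerSet_univ).op
      (fun n a => ((ofRaw (Γ := Γ) w hlow).op n a).up (Set.subset_univ _))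
      (fun n p => z.dense_up hlow n p) hz ((h6 q1).up (Set.subset_univ _))
  choose f hf w hw using h5
  obtain ⟨l, l', hne, hww, s, hs, hs'⟩ := (pccc (Γ := Γ)).exists_compat_same
    (X := I) (Z := {w : Nm K I // Supp (Set.Iio α) w}) (by
      refine lt_of_le_of_lt ?_ hIK
      calc _ ≤ #K * ℵ₀ := mul_le_mul' (mk_supp hK _ (hIio α)) le_rfl
        _ = #K := Cardinal.mul_eq_left (Cardinal.aleph0_le_mk K) (Cardinal.aleph0_le_mk K)
          Cardinal.aleph0_ne_zero) f w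
  obtain ⟨r, hr, hr'⟩ := mem_fimp.1 (hq l l') s ((hs.trans (hf l)).trans hq0) hne
  obtain ⟨r1, hr1, n, hr1n⟩ := mem_fex.1 hr' r le_rfl
  refine hr1n r1 le_rfl (mem_fiff (fun u hu => ?_) (down_meets _) (down_meets _))
  let X : I → VN Γ Set.univ Bool := fun l =>
    ofSet (Γ := Γ) (fun n => (meets (x l n) : Set (PP Γ)))
      (fun n => op_of_down (down_meets _)) isLowerSet_univ
  obtain ⟨t1, ht1, v, hv⟩ := (X l).dense n u
  obtain ⟨t2, ht2, v', hv'⟩ := (X l').dense n t1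
  obtain ⟨t3, ht3, v'', hv''⟩ := (ofRaw (Γ := Γ) (w l).1 hlow).dense_up (T := Set.univ) hlow n t2
  have ht31 : le Γ Set.univ t3 t1 := le_trans' hU ht3 ht2
  have ht3s : le Γ Set.univ t3 s :=
    le_trans' hU ht31 (le_trans' hU ht1 (le_trans' hU hu (le_trans' hU hr1 hr)))
  have h6 : v = v'' := hw l t3 (le_trans' hU ht3s hs) n v v'' ((X l).op _ _ t1 hv t3 ht31) hv''
  have h7 : v' = v'' := hw l' t3 (le_trans' hU ht3s hs') n v' v''
    ((X l').op _ _ t2 hv' t3 ht3) (by rw [← hww]; exact hv'')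
  refine ⟨t3, le_trans' hU ht31 ht1, ?_⟩
  have h8 : t3 ∈ (X l).val n v'' := h6 ▸ (X l).op _ _ t1 hv t3 ht31
  have h9 : t3 ∈ (X l').val n v'' := h7 ▸ (X l').op _ _ t2 hv' t3 ht3
  rcases Bool.eq_false_or_eq_true v'' with h10 | h10
  · rw [h10] at h8 h9
    exact ⟨fun _ => mem_ofSet_true.1 h9, fun _ => mem_ofSet_true.1 h8⟩
  · rw [h10] at h8 h9
    exact ⟨fun h => absurd h (mem_ofSet_false.1 h8 t3 (le_refl' _ t3)),
      fun h => absurd h (mem_ofSet_false.1 h9 t3 (le_refl' _ t3))⟩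

end Pool.Agent.W684.BMA
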