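import Pool.Agent.W684.BMA.Meagre

/-!
# The cardinal characteristics
-/

set_option autoImplicit false
set_option linter.unusedSectionVars false

namespace Pool.Agent.W684.BMA

open Classical Cardinal Pointwise

/-- `X` is meager-additive: `X + M` is meager for every meager set `M`. -/
def MeagerAdditive (X : Set (ℕ → ZMod 2)) : Prop :=
  ∀ M : Set (ℕ → ZMod 2), IsMeagre M → IsMeagre (X + M)

/-- The ideal of the meager sets. -/
def MeagerSets : Set (Set (ℕ → ZMod 2)) := {X | IsMeagre X}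

/-- The ideal of the meager-additive sets. -/
def MASets : Set (Set (ℕ → ZMod 2)) := {X | MeagerAdditive X}

/-- The additivity of an ideal: the least size of a family of members of the ideal whose union
is not in the ideal. -/
noncomputable def additivity (J : Set (Set (ℕ → ZMod 2))) : Cardinal.{0} :=
  sInf {c | ∃ F : Set (Set (ℕ → ZMod 2)), F ⊆ J ∧ #F = c ∧ ⋃₀ F ∉ J}

/-- The bounding number: the least size of a family of functions which is not bounded with
respect to eventual domination. -/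
noncomputable def bounding : Cardinal.{0} :=
  sInf {c | ∃ F : Set (ℕ → ℕ), #F = c ∧
    ¬ ∃ g : ℕ → ℕ, ∀ f ∈ F, ∀ᶠ n in Filter.atTop, f n ≤ g n}

/-- a captured set is meager-additive -/
theorem meagerAdditive_of_captured {X : Set Cant}
    (h : ∀ A, Inf A → ∃ B y : ℕ → Prop, Inf B ∧ ∀ x ∈ X, Captured A B y (toP x)) :
    MeagerAdditive X := by
  intro M hM
  obtain ⟨A, hA, z, hz⟩ := exists_NM hM
  obtain ⟨B, y, hB, hc⟩ := h A hA
  let y' : Cant := fun n => if y n then 1 else 0
  have hy' : ∀ n, toP y' n ↔ y n := by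
    intro n
    unfold toP
    by_cases hn : y n
    · simp [y', hn]
    · simp [y', hn]
  refine (isMeagre_NM hB (y' + z)).mono ?_
  rintro _ ⟨x, hx, m, hm, rfl⟩
  obtain ⟨N1, h1⟩ := hc x hx
  obtain ⟨N2, h2⟩ := hz hm
  refine ⟨max N1 N2, fun b b' hb hnext => ?_⟩
  obtain ⟨a, a', h3, h4, h5, h6⟩ := h1 b ((le_max_left _ _).trans hb) hnext.2.1
  have h7 : a' ≤ b' := by
    rcases h5 b' hnext.2.2.1 with h | h
    · exact absurd hnext.1 (not_lt.2 h)
    · exact h
  obtain ⟨n, h8, h9, h10⟩ := h2 a a' ((le_max_right _ _).trans (hb.trans h3)) h4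
  refine ⟨n, h3.trans h8, h9.trans_le h7, ?_⟩
  have h11 : x n = y' n := toP_iff.1 ((h6 n ⟨h8, h9⟩).trans (hy' n).symm)
  show x n + m n ≠ y' n + z n
  rw [h11]
  exact fun h => h10 (add_left_cancel h)

/-- a meager-additive set is captured -/
theorem captured_of_meagerAdditive {X : Set Cant} (h : MeagerAdditive X) {A : ℕ → Prop}
    (hA : Inf A) : ∃ B y : ℕ → Prop, Inf B ∧ ∀ x ∈ X, Captured A B y (toP x) := by
  obtain ⟨J, hJ, z, hz⟩ := exists_NM (h (NM A 0) (isMeagre_NM hA 0))
  refine ⟨J, toP z, hJ, fun x hx => captured_of_subset hA hJ fun m hm => ?_⟩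
  exact hz (Set.add_mem_add hx hm)

theorem MeagerAdditive.mono {X Y : Set Cant} (h : MeagerAdditive X) (hYX : Y ⊆ X) :
    MeagerAdditive Y := fun M hM => (h M hM).mono (Set.add_subset_add_right hYX)

theorem inf_true : Inf fun _ => True := fun m => ⟨m, le_rfl, trivial⟩

theorem meagerAdditive_singleton (x : Cant) : MeagerAdditive {x} := by
  apply meagerAdditive_of_captured
  intro A hA
  refine ⟨A, toP x, hA, ?_⟩
  rintro _ rfl
  refine ⟨0, fun b _ hb => ?_⟩
  obtain ⟨b', hb'⟩ := exists_next hA hb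
  exact ⟨b, b', le_rfl, hb', hb'.2.2.2, fun _ _ => Iff.rfl⟩

theorem not_meagerAdditive_univ : ¬ MeagerAdditive (Set.univ : Set Cant) := by
  intro h
  obtain ⟨B, y, hB, hc⟩ := captured_of_meagerAdditive h inf_true
  let x : Cant := fun n => if y n then 0 else 1
  obtain ⟨N, hN⟩ := hc x (Set.mem_univ x)
  obtain ⟨b, hb, hBb⟩ := hB N
  obtain ⟨a, a', _, h1, _, h2⟩ := hN b hb hBb
  have h3 := h2 a ⟨le_rfl, h1.1⟩
  by_cases hy : y a
  · have h4 : x a = 1 := h3.2 hy
    have h5 : x a = 0 := if_pos hy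
    rw [h5] at h4
    exact absurd h4 (by decide)
  · have h5 : x a = 1 := if_neg hy
    exact hy (h3.1 h5)

theorem additivity_MA_mem : ∃ F : Set (Set Cant), F ⊆ MASets ∧ #F = additivity MASets ∧
    ⋃₀ F ∉ MASets := by
  have : (additivity MASets) ∈ {c | ∃ F : Set (Set (ℕ → ZMod 2)), F ⊆ MASets ∧ #F = c ∧
      ⋃₀ F ∉ MASets} := by
    apply csInf_mem
    refine ⟨_, MASets, Set.Subset.refl _, rfl, fun h => not_meagerAdditive_univ ?_⟩
    refine MeagerAdditive.mono h fun x _ => ?_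
    exact ⟨{x}, meagerAdditive_singleton x, rfl⟩
  exact this

theorem bounding_mem : ∃ F : Set (ℕ → ℕ), #F = bounding ∧
    ¬ ∃ g : ℕ → ℕ, ∀ f ∈ F, ∀ᶠ n in Filter.atTop, f n ≤ g n := by
  have : bounding ∈ {c | ∃ F : Set (ℕ → ℕ), #F = c ∧
    ¬ ∃ g : ℕ → ℕ, ∀ f ∈ F, ∀ᶠ n in Filter.atTop, f n ≤ g n} := by
    apply csInf_mem
    refine ⟨_, Set.univ, rfl, ?_⟩
    rintro ⟨g, hg⟩
    obtain ⟨n, hn⟩ := (hg (fun n => g n + 1) (Set.mem_univ _)).exists
    omega
  exact this

/-- a partition whose intervals are long with respect to `f` -/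
theorem exists_long_partition (f : ℕ → ℕ) : ∃ A : ℕ → Prop, Inf A ∧
    ∀ a a', Next A a a' → ∀ n ≤ a, f n < a' := by
  let a : ℕ → ℕ := fun n => Nat.rec 0 (fun _ c => c + (∑ i ∈ Finset.range (c + 1), f i) + 1) n
  have ha : ∀ n, a (n + 1) = a n + (∑ i ∈ Finset.range (a n + 1), f i) + 1 := fun _ => rfl
  have hlt : ∀ n, a n < a (n + 1) := fun n => by rw [ha]; omega
  have hmono : StrictMono a := strictMono_nat_of_lt_succ hlt
  refine ⟨fun c => ∃ n, a n = c, fun m => ⟨a m, hmono.id_le m, m, rfl⟩, ?_⟩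
  intro c c' hnext n hn
  obtain ⟨k, rfl⟩ := hnext.2.1
  obtain ⟨l, rfl⟩ := hnext.2.2.1
  have h1 : k < l := hmono.lt_iff_lt.1 hnext.1
  have h2 : a (k + 1) ≤ a l := hmono.monotone h1
  have h3 : f n ≤ ∑ i ∈ Finset.range (a k + 1), f i :=
    Finset.single_le_sum (fun i _ => Nat.zero_le _) (Finset.mem_range.2 (by omega))
  rw [ha] at h2
  omega

/-- `add(M) ≤ 𝔟` -/
theorem additivity_meager_le : additivity MeagerSets ≤ bounding := by
  obtain ⟨F, hF, hunb⟩ := bounding_mem
  choose A hA hA' using exists_long_partition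
  rw [← hF]
  refine (csInf_le' (a := #((fun f => NM (A f) 0) '' F)) ?_).trans Cardinal.mk_image_le
  refine ⟨_, ?_, rfl, fun hM => hunb ?_⟩
  · rintro _ ⟨f, _, rfl⟩
    exact isMeagre_NM (hA f) 0
  · obtain ⟨J, hJ, z, hz⟩ := exists_NM hM
    -- the elements of `J`
    have h1 : ∀ n, ∃ b, n ≤ b ∧ J b := hJ
    choose b hb hJb using h1
    have h2 : ∀ n, ∃ b', Next J (b n) b' := fun n => exists_next hJ (hJb n)
    choose b' hb' using h2
    refine ⟨b', fun f hf => ?_⟩
    have h3 : Captured (A f) J (toP z) (toP 0) := by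
      apply captured_of_subset (hA f) hJ
      intro m hm
      rw [zero_add]
      exact hz ⟨_, ⟨f, hf, rfl⟩, hm⟩
    obtain ⟨N, hN⟩ := h3
    rw [Filter.eventually_atTop]
    refine ⟨N, fun n hn => ?_⟩
    obtain ⟨a, a', h4, h5, h6, _⟩ := hN (b n) (hn.trans (hb n)) (hJb n)
    have h7 := hA' f a a' h5 n ((hb n).trans h4)
    rcases h6 (b' n) (hb' n).2.2.1 with h8 | h8
    · exact absurd (hb' n).1 (not_lt.2 h8)
    · omega

/-- the combinatorial sentence implies `𝔟 < add(MA)` -/
theorem bounding_lt {K L : Type} [Infinite K] [LinearOrder L] [WellFoundedLT L]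
    (hL : ∀ l : L, Nonempty (Set.Iio l ↪ K)) (h : PhiFor K L) :
    bounding < additivity MASets := by
  obtain ⟨⟨f, hf⟩, hall, hfew⟩ := h
  have h1 : bounding ≤ #K := by
    have hmem : ¬ ∃ g : ℕ → ℕ, ∀ e ∈ Set.range f, ∀ᶠ n in Filter.atTop, e n ≤ g n := by
      rintro ⟨g, hg⟩
      obtain ⟨k, hk⟩ := hf g
      obtain ⟨N, hN⟩ := Filter.eventually_atTop.1 (hg (f k) ⟨k, rfl⟩)
      obtain ⟨n, hn, hn'⟩ := hk N
      exact absurd (hN n hn) (not_le.2 hn')
    have h0 : bounding ≤ #(Set.range f) := csInf_le' ⟨Set.range f, rfl, hmem⟩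
    exact h0.trans Cardinal.mk_range_le
  refine h1.trans_lt ?_
  by_contra hcon
  rw [not_lt] at hcon
  obtain ⟨F, hFMA, hF, hFU⟩ := additivity_MA_mem
  rw [← hF] at hcon
  -- meager-additive sets are small
  have h2 : ∀ X : Set Cant, MeagerAdditive X → #X ≤ #K := by
    intro X hX
    have h3 : #X < #L := by
      by_contra h4
      rw [not_lt] at h4
      obtain ⟨ι⟩ := h4
      obtain ⟨A, hA, h5⟩ := hfew (fun l => toP (ι l).1) (by
        intro l l' hne
        by_contra h6
        push Not at h6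
        apply hne
        apply ι.injective
        apply Subtype.ext
        funext n
        exact toP_iff.1 (h6 n))
      obtain ⟨B, y, hB, h6⟩ := captured_of_meagerAdditive hX hA
      obtain ⟨l, hl⟩ := h5 B y hB
      exact hl (h6 _ (ι l).2)
    have h4 : (#X).ord < Ordinal.type ((· < ·) : L → L → Prop) :=
      (Cardinal.ord_lt_ord.2 h3).trans_le (Cardinal.ord_le_type _)
    obtain ⟨l, hl⟩ := Ordinal.typein_surj ((· < ·) : L → L → Prop) h4
    have h5 := congrArg Ordinal.card hl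
    rw [Cardinal.card_ord, Ordinal.card_typein] at h5
    rw [← h5]
    exact hL l
  have h3 : #(⋃₀ F) ≤ #K := by
    refine (Cardinal.mk_sUnion_le F).trans ?_
    calc #F * _ ≤ #K * #K := by
          apply mul_le_mul' hcon
          apply ciSup_le'
          intro X
          exact h2 X.1 (hFMA X.2)
      _ = #K := Cardinal.mul_eq_self (Cardinal.aleph0_le_mk K)
  apply hFU
  apply meagerAdditive_of_captured
  intro A hA
  rcases (⋃₀ F).eq_empty_or_nonempty with h4 | h4
  · exact ⟨A, A, hA, fun x hx => by rw [h4] at hx; exact absurd hx (Set.notMem_empty x)⟩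
  · obtain ⟨ι⟩ := h3
    have hne : Nonempty (⋃₀ F : Set Cant) := h4.to_subtype
    obtain ⟨B, y, hB, h5⟩ := hall (fun k => toP (Function.invFun ι k).1) A hA
    refine ⟨B, y, hB, fun x hx => ?_⟩
    have h6 := h5 (ι ⟨x, hx⟩)
    rwa [Function.leftInverse_invFun ι.injective] at h6

/-- the combinatorial sentence implies `add(M) < add(MA)` -/
theorem additivity_lt {K L : Type} [Infinite K] [LinearOrder L] [WellFoundedLT L]
    (hL : ∀ l : L, Nonempty (Set.Iio l ↪ K)) (h : PhiFor K L) :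
    additivity MeagerSets < additivity MASets :=
  additivity_meager_le.trans_lt (bounding_lt hL h)

end Pool.Agent.W684.BMA
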