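import Pool.Agent.W684.BMA.Fan

/-!
# Countable sets of tails: the limit step
-/

set_option autoImplicit false
set_option linter.unusedSectionVars false

namespace Pool.Agent.W684.BMA

open Classical

variable {K I : Type} [LinearOrder I] [WellFoundedLT I] {Γ : Par K I} {S T : Set I} {X Y : Type}

/-- closure of a point under an operation with countably many values -/
theorem exists_closed {α : Type} (a : α) (F : α → Set α) (hF : ∀ x, (F x).Countable) :
    ∃ E : ℕ → α, E 0 = a ∧ ∀ i, ∀ y ∈ F (E i), ∃ j, E j = y := by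
  let G : ℕ → Set α := fun n => Nat.rec {a} (fun _ s => s ∪ ⋃ x ∈ s, F x) n
  have hG0 : G 0 = {a} := rfl
  have hGs : ∀ n, G (n + 1) = G n ∪ ⋃ x ∈ G n, F x := fun _ => rfl
  have hG : ∀ n, (G n).Countable := by
    intro n
    induction n with
    | zero => exact Set.countable_singleton a
    | succ n ih =>
      rw [hGs]
      exact ih.union (ih.biUnion fun x _ => hF x)
  have hU : (⋃ n, G n).Countable := Set.countable_iUnion hG
  have ha : a ∈ ⋃ n, G n := Set.mem_iUnion.2 ⟨0, rfl⟩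
  obtain ⟨E, hE⟩ := hU.exists_eq_range ⟨a, ha⟩
  refine ⟨fun n => Nat.casesOn n a fun n => E n, rfl, fun i y hy => ?_⟩
  have h1 : (Nat.casesOn i a fun n => E n : α) ∈ ⋃ n, G n := by
    cases i with
    | zero => exact ha
    | succ i =>
      rw [hE]
      exact ⟨i, rfl⟩
  obtain ⟨n, hn⟩ := Set.mem_iUnion.1 h1
  have h2 : y ∈ ⋃ n, G n := by
    rw [Set.mem_iUnion]
    refine ⟨n + 1, ?_⟩
    rw [hGs]
    exact Or.inr (Set.mem_iUnion₂.2 ⟨_, hn, hy⟩)
  rw [hE] at h2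
  obtain ⟨j, hj⟩ := h2
  exact ⟨j + 1, hj⟩

/-- the pieces at a limit step -/
def Ql (T R : Set I) (E : ℕ → Cond K I) (i : ℕ) : Set (Cond K I) :=
  {r | ∃ j ≤ i, ∀ l ∈ T, l ∉ R → r l = E j l}

/-- `X` and `L` witness that the tasks with the number `m` can be fulfilled above `e` -/
def Good (R : Set I) (D : Task Γ T Y) (m : ℕ) (e t : Cond K I) (L : ℕ)
    (X : List (Cond K I)) : Prop :=
  (∀ c ∈ X, le Γ T (mix R t c) (mix R t e)) ∧
    ∀ y t1, le Γ R t1 t → ∃ t2, le Γ R t2 t1 ∧ ∃ c ∈ X, mix R t2 c ∈ D.D m L y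

theorem Tot.exists_good {R : Set I} (hR : IsLowerSet R) {D : Task Γ T Y} (h : Tot R D) (m : ℕ)
    (e t : Cond K I) : ∃ t', le Γ R t' t ∧ ∃ L X, Good R D m e t' L X := by
  obtain ⟨t', L, X, h1, h2, h3⟩ := h m (mix R t e)
  refine ⟨t', le_congr hR (fun _ _ => rfl) (fun i hi => mix_mem _ _ hi) h1, L, X, ?_, h3⟩
  intro c hc j hj
  by_cases hjR : j ∈ R
  · refine ext_congr j (fun _ _ => rfl) ?_ (ext_refl j (mix R t' c))
    rw [mix_mem _ _ hjR, mix_mem _ _ hjR]
  · refine ext_congr j (fun _ _ => rfl) ?_ (h2 c hc j hj)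
    rw [mix_notMem _ _ hjR, mix_notMem _ _ hjR]

theorem exists_tails (D : Task Γ T Y) (R : ℕ → Set I) (hR : ∀ n, IsLowerSet (R n))
    (hT : IsLowerSet T) (hD : ∀ n, Tot (R n) D) :
    ∃ E : ℕ → Cond K I, E 0 = Cond.one ∧ ∀ n, StepDense (R n) (Ql T (R n) E) D := by
  have h1 : ∀ (n m : ℕ) (e : Cond K I), ∃ C : Set (Cond K I), C.Countable ∧
      C ⊆ {t | ∃ L X, Good (R n) D m e t L X} ∧ ∀ p ∈ {t | ∃ L X, Good (R n) D m e t L X},
        ∃ a ∈ C, ∃ r, le Γ (R n) r p ∧ le Γ (R n) r a := fun n m e => exists_predense _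
  choose C hC hCg hCd using h1
  have h2 : ∀ (n m : ℕ) (e t : Cond K I), ∃ L, ∃ X : List (Cond K I), t ∈ C n m e →
      Good (R n) D m e t L X := by
    intro n m e t
    by_cases h : t ∈ C n m e
    · obtain ⟨L, X, hX⟩ := hCg n m e h
      exact ⟨L, X, fun _ => hX⟩
    · exact ⟨0, [], fun h' => absurd h' h⟩
  choose L X hX using h2
  obtain ⟨E, hE0, hE⟩ := exists_closed (Cond.one : Cond K I)
    (fun e => ⋃ n, ⋃ m, ⋃ t ∈ C n m e, {c | c ∈ X n m e t}) (by
      intro e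
      apply Set.countable_iUnion
      intro n
      apply Set.countable_iUnion
      intro m
      exact (hC n m e).biUnion fun t _ => (X n m e t).finite_toSet.countable)
  refine ⟨E, hE0, fun n i m t => ?_⟩
  have h3 : ∀ i n m t c, t ∈ C n m (E i) → c ∈ X n m (E i) t → ∃ j, E j = c := by
    intro i n m t c ht hc
    apply hE i
    rw [Set.mem_iUnion]
    refine ⟨n, ?_⟩
    rw [Set.mem_iUnion]
    refine ⟨m, ?_⟩
    rw [Set.mem_iUnion₂]
    exact ⟨t, ht, hc⟩
  obtain ⟨q, hq, v, hv⟩ := dense_fin (Γ := Γ) (hR n)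
    (fun i v => {t | ∀ r : Cond K I, (∀ l ∈ T, l ∉ R n → r l = E i l) → le Γ (R n) r t →
      ∀ y, ∃ r', le Γ T r' r ∧ ∃ j ≤ v, r' ∈ Ql T (R n) E j ∧ r' ∈ D.D m v y})
    (fun i v p hp q hq r hr hrq => hp r hr (le_trans' (hR n) hrq hq))
    (fun i v v' hv p hp r hr hrp y => by
      obtain ⟨r', h4, j, h5, h6, h7⟩ := hp r hr hrp y
      exact ⟨r', h4, j, h5.trans hv, h6, D.mono _ _ _ _ hv h7⟩) t
    (fun i p _ => by
      obtain ⟨s, hs, hs'⟩ := (hD n).exists_good (hR n) m (E i) p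
      obtain ⟨a, ha, q, hqs, hqa⟩ := hCd n m (E i) s hs'
      obtain ⟨hg1, hg2⟩ := hX n m (E i) a ha
      have h4 : ∀ c, ∃ j, c ∈ X n m (E i) a → E j = c := by
        intro c
        by_cases hc : c ∈ X n m (E i) a
        · obtain ⟨j, hj⟩ := h3 i n m a c ha hc
          exact ⟨j, fun _ => hj⟩
        · exact ⟨0, fun h => absurd h hc⟩
      choose idx hidx using h4
      obtain ⟨v, hv⟩ := exists_list_bound idx (X n m (E i) a)
      refine ⟨q, le_trans' (hR n) hqs hs, max (L n m (E i) a) v, ?_⟩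
      intro r hr hrq y
      obtain ⟨t2, h5, c, hc, h6⟩ := hg2 y r (le_trans' (hR n) hrq hqa)
      refine ⟨mix (R n) t2 c, ?_, idx c, (hv c hc).trans (le_max_right _ _), ?_,
        D.mono _ _ _ _ (le_max_left _ _) h6⟩
      · have h7 : le Γ (R n) t2 a := le_trans' (hR n) h5 (le_trans' (hR n) hrq hqa)
        have h8 := mix_le_mix (hR n) hT h7 (hg1 c hc)
        refine le_trans' hT h8 ?_
        have h9 : le Γ T (mix (R n) t2 r) r := mix_le (hR n) h5
        refine le_congr hT (fun l hl => ?_) (fun _ _ => rfl) h9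
        by_cases hl' : l ∈ R n
        · rw [mix_mem _ _ hl', mix_mem _ _ hl']
        · rw [mix_notMem _ _ hl', mix_notMem _ _ hl', hr l hl hl']
      · refine ⟨idx c, le_rfl, fun l _ hl' => ?_⟩
        rw [mix_notMem _ _ hl', hidx c hc]) (i + 1)
  refine ⟨q, hq, v, ?_⟩
  rintro r ⟨j, hj, hr⟩ hrq y
  exact hv j (Nat.lt_succ_of_le hj) r hr hrq y

end Pool.Agent.W684.BMA
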