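import Pool.Agent.W684.BMA.Book
import Pool.Agent.W684.BMA.Defs

/-!
# The preorder of the conditions; names of the forcing language and raw names
-/

set_option autoImplicit false
set_option linter.unusedSectionVars false

namespace Pool.Agent.W684.BMA

open Classical Pool.Agent.Helper669.Forcing

variable {K I : Type} [LinearOrder I] [WellFoundedLT I]

/-- the conditions, with the order given by the parameters -/
def PP (_Γ : Par K I) : Type := Cond K I

variable {Γ : Par K I}

/-- an element of `PP Γ` as a condition -/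
abbrev PP.toC (r : PP Γ) : Cond K I := r

noncomputable instance : Preorder (PP Γ) where
  le q p := le Γ Set.univ q p
  le_refl p := le_refl' Set.univ p
  le_trans _ _ _ h1 h2 := le_trans' isLowerSet_univ h1 h2

theorem PP.le_def {q p : PP Γ} : q ≤ p ↔ le Γ Set.univ q p := Iff.rfl

theorem pccc : FM.PCCC (PP Γ) := by
  intro A hA
  by_contra hcon
  obtain ⟨p, hp, q, hq, hne, h⟩ := ccc (Γ := Γ) (T := Set.univ) A hcon
  exact hA p hp q hq hne h

theorem op_of_down {U : Set (PP Γ)} (h : Down U) : Op Γ Set.univ U := h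

theorem exists_raw_name (N : ℕ → Set (PP Γ)) : ∃ x : Nm K I,
    (∀ n p, Bit (le Γ Set.univ) p x n true → (p : PP Γ) ∈ meets (N n)) ∧
    (∀ n p, Bit (le Γ Set.univ) p x n false → ∀ q : PP Γ, q ≤ p → q ∉ meets (N n)) := by
  obtain ⟨x, -, hx⟩ := exists_raw (Γ := Γ) (S := Set.univ) isLowerSet_univ
    (fun n => (meets (N n) : Set (PP Γ))) (fun n => op_of_down (down_meets _))
  refine ⟨x, fun n p hp => ?_, fun n p hp q hq hqn => ?_⟩
  · refine FM.meets_of_dense (P := PP Γ) ?_
    intro q hq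
    by_contra hcon
    have h1 : q ∈ (ofSet (Γ := Γ) (fun n => (meets (N n) : Set (PP Γ)))
        (fun n => op_of_down (down_meets _)) isLowerSet_univ).val n false :=
      mem_ofSet_false.2 fun r hr hrn => hcon ⟨r, hr, hrn⟩
    have h2 := hx q q (le_refl' _ q) n false true h1 (mem_ofRaw.2 (hp.mono isLowerSet_univ hq))
    exact Bool.false_ne_true h2
  · have h1 : q ∈ (ofSet (Γ := Γ) (fun n => (meets (N n) : Set (PP Γ)))
        (fun n => op_of_down (down_meets _)) isLowerSet_univ).val n true := mem_ofSet_true.2 hqn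
    have h2 := hx q q (le_refl' _ q) n true false h1 (mem_ofRaw.2 (hp.mono isLowerSet_univ hq))
    exact Bool.false_ne_true h2.symm

/-- a raw name represents a name -/
def Rep (Γ : Par K I) (x : Nm K I) (N : ℕ → Set (PP Γ)) : Prop :=
  (∀ n p, Bit (le Γ Set.univ) p x n true → (p : PP Γ) ∈ meets (N n)) ∧
    (∀ n p, Bit (le Γ Set.univ) p x n false → ∀ q : PP Γ, q ≤ p → q ∉ meets (N n))

theorem Rep.true_iff {x : Nm K I} {N : ℕ → Set (PP Γ)} (h : Rep Γ x N) {n : ℕ} {b : Bool}
    {p : Cond K I} (hp : Bit (le Γ Set.univ) p x n b) : (p : PP Γ) ∈ meets (N n) ↔ b = true := by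
  cases b with
  | true => exact ⟨fun _ => rfl, fun _ => h.1 n p hp⟩
  | false => exact ⟨fun h' => absurd h' (h.2 n p hp p (le_refl' _ p)), fun h' => absurd h' (by simp)⟩

theorem mem_meets_of_down {N : Set (PP Γ)} (hN : Down N) {p : PP Γ} (h : p ∈ meets N) :
    ∃ q, q ≤ p ∧ q ∈ N := by
  obtain ⟨q, hq, h'⟩ := exists_of_meets hN h
  exact ⟨q, hq, h'⟩

theorem mem_fiff {φ ψ : Set (PP Γ)} {p : PP Γ} (h : ∀ q ≤ p, ∃ r ≤ q, (r ∈ φ ↔ r ∈ ψ))
    (hφ : Down φ) (hψ : Down ψ) : p ∈ fiff φ ψ := by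
  refine ⟨mem_fimp.2 fun q hq hq' => ?_, mem_fimp.2 fun q hq hq' => ?_⟩
  · obtain ⟨r, hr, h1⟩ := h q hq
    exact ⟨r, hr, h1.1 (hφ q hq' r hr)⟩
  · obtain ⟨r, hr, h1⟩ := h q hq
    exact ⟨r, hr, h1.2 (hψ q hq' r hr)⟩

theorem down_fiff (φ ψ : Set (PP Γ)) : Down (fiff φ ψ) :=
  down_fand (down_fimp _ _) (down_fimp _ _)

theorem down_InfN (A : ℕ → Set (PP Γ)) : Down (InfN A) := down_fall fun _ => down_fex _

theorem down_NextN (A : ℕ → Set (PP Γ)) (a a' : ℕ) : Down (NextN A a a') :=
  down_fand (down_fground _) (down_fand (down_meets _) (down_fand (down_meets _)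
    (down_fall fun _ => down_fimp _ _)))

theorem down_CapturedN (A B y x : ℕ → Set (PP Γ)) : Down (CapturedN A B y x) := down_fex _

/-! ### The ground model reals are unbounded -/

theorem unboundedN (hΓ : Full Γ) (hk : K → ℕ → ℕ) (hsurj : Function.Surjective hk)
    (p : PP Γ) : p ∈ UnboundedN (PP Γ) K := by
  refine mem_fex_of_mem (fun k n b => fground (b = hk k n))
    (down_fand (down_fall fun _ => down_IsFun _) (down_fall fun _ => down_fimp _ _)) ?_
  have hground : ∀ (c : Prop) (q : PP Γ), q ∈ meets (fground c) ↔ c := by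
    intro c q
    constructor
    · intro h
      obtain ⟨_, _, _, h1, _⟩ := h q le_rfl
      exact h1
    · exact fun h => meets_of_mem h
  refine ⟨fun k => ⟨fun n => ?_, fun n b b' => ?_⟩, fun f => ?_⟩
  · exact mem_fex_of_mem (hk k n) (down_meets _) ((hground _ _).2 rfl)
  · refine mem_fimp.2 fun q _ hq => ⟨q, le_rfl, ?_⟩
    have h1 := (hground _ _).1 hq.1
    have h2 := (hground _ _).1 hq.2
    show b = b'
    rw [h1, h2]
  · refine mem_fimp.2 fun q _ hf => ⟨q, le_rfl, ?_⟩
    -- the name of a bound for `f`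
    let φ : BN Γ Set.univ :=
      { U := fun m v => {t : PP Γ | (∃ v' ≤ v, t ∈ meets (f m v')) ∨ ∀ s, s ≤ t → ¬ s ≤ q}
        op := by
          rintro m v t (⟨v', hv, ht⟩ | ht) t' ht'
          · exact Or.inl ⟨v', hv, down_meets _ _ ht t' ht'⟩
          · exact Or.inr fun s hs => ht s (le_trans' isLowerSet_univ hs ht')
        mono := by
          rintro m v v' hv t (⟨w, hw, ht⟩ | ht)
          · exact Or.inl ⟨w, hw.trans hv, ht⟩
          · exact Or.inr ht
        dense := by
          intro m t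
          by_cases h : ∃ s : PP Γ, le Γ Set.univ s t ∧ s ≤ q
          · obtain ⟨s, hs, hsq⟩ := h
            obtain ⟨s', hs', v, hv⟩ := IsFun.total (down_IsFun f q hf s hsq) m
            exact ⟨s', le_trans' isLowerSet_univ hs' hs, v, Or.inl ⟨v, le_rfl, hv⟩⟩
          · exact ⟨t, le_refl' _ t, 0, Or.inr fun s hs hsq => h ⟨s, hs, hsq⟩⟩ }
    obtain ⟨A, hA, hrun⟩ := da hΓ (isLowerSet_empty) Set.univ isLowerSet_univ
      (Set.empty_subset _) φ
    have hA1 : ∀ l, ∃ a, ∀ t, t ∈ A.val l a := by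
      intro l
      obtain ⟨t, _, a, ha⟩ := A.dense l Cond.one
      exact ⟨a, fun t' => A.op l a t ha t' fun j hj => absurd hj (Set.notMem_empty j)⟩
    choose a ha using hA1
    have hmono : ∀ l, a l < a (l + 1) := fun l => hA l Cond.one _ _ (ha l _) (ha (l + 1) _)
    have hstrict : StrictMono a := strictMono_nat_of_lt_succ hmono
    obtain ⟨k, hkk⟩ := hsurj fun n => if h : ∃ l, a l = n then a (h.choose + 1) + 1 else 0
    have hval : ∀ l, hk k (a l) = a (l + 1) + 1 := by
      intro l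
      rw [hkk]
      have h : ∃ l', a l' = a l := ⟨l, rfl⟩
      simp only
      rw [dif_pos h, hstrict.injective h.choose_spec]
    refine mem_fex_of_mem k (down_fall fun _ => down_fex _) fun N => ?_
    refine mem_fex.2 fun q' hq' => ?_
    let g : VN Γ ∅ ℕ :=
      { val := fun n v => {_t | v = n}
        op := fun _ _ _ h _ _ => h
        uniq := fun n p v v' h h' => h.trans h'.symm
        dense := fun n p => ⟨p, le_refl' _ p, n, rfl⟩ }
    obtain ⟨κ, hκ, r, hr, M, hM, hl⟩ := hrun g () q' N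
    have hMκ : M = κ := hM
    obtain ⟨b, b', h1, h2, h3⟩ := hl κ le_rfl hMκ.ge
    have hb : b = a κ := A.uniq _ r _ _ h1 (ha κ r)
    have hb' : b' = a (κ + 1) := A.uniq _ r _ _ h2 (ha (κ + 1) r)
    subst hb hb'
    rcases h3 with ⟨v', hv', h4⟩ | h4
    · refine ⟨r, hr, a κ, hκ.trans (hstrict.id_le κ), ?_⟩
      refine mem_fex_of_mem v' (down_fex _) ?_
      refine mem_fex_of_mem (a (κ + 1) + 1) (down_fand (down_meets _)
        (down_fand (down_meets _) (down_fground _))) ⟨h4, ?_, ?_⟩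
      · rw [hground, hval]
      · exact Nat.lt_succ_of_le hv'
    · exact absurd (le_trans' isLowerSet_univ hr hq') (h4 r (le_refl' _ r))

end Pool.Agent.W684.BMA
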