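import Pool.Agent.W684.BMA.Ccc

/-!
# Long runs
-/

set_option autoImplicit false
set_option linter.unusedSectionVars false

namespace Pool.Agent.W684.BMA

open Classical

variable {K I : Type} [LinearOrder I] [WellFoundedLT I] {Γ : Par K I} {S T R : Set I} {X Y : Type}

/-- tasks -/
structure Task (Γ : Par K I) (T : Set I) (Y : Type) where
  D : ℕ → ℕ → Y → Set (Cond K I)
  op : ∀ m L y, Op Γ T (D m L y)
  mono : ∀ m L L' y, L ≤ L' → D m L y ⊆ D m L' y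

/-- the task to bound a function -/
def BN.task (φ : BN Γ T) : Task Γ T Unit where
  D m L _ := φ.U m L
  op m L _ := φ.op m L
  mono m L L' _ := φ.mono m L L'

/-- there is a strictly increasing function with long runs of fulfilled tasks -/
def Run (S : Set I) (D : Task Γ T Y) : Prop :=
  ∃ A : VN Γ S ℕ, Incr A ∧ ∀ (g : VN Γ S ℕ) (y : Y) (p : Cond K I) (n0 : ℕ),
    ∃ κ, n0 ≤ κ ∧ ∃ q, le Γ T q p ∧ ∃ M, q ∈ g.val κ M ∧ ∀ l, κ ≤ l → l ≤ M →
      ∃ a a', q ∈ A.val l a ∧ q ∈ A.val (l + 1) a' ∧ q ∈ D.D a a' y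

/-- no dominating function is added -/
def DA (Γ : Par K I) (S T : Set I) : Prop := ∀ φ : BN Γ T, Run S φ.task

/-- the tasks can be fulfilled by means of small pieces -/
def StepAt (R : Set I) (Q : ℕ → Set (Cond K I)) (D : Task Γ T Y) (t : Cond K I)
    (i m L : ℕ) : Prop :=
  ∀ r ∈ Q i, le Γ R r t → ∀ y, ∃ r', le Γ T r' r ∧ ∃ j ≤ L, r' ∈ Q j ∧ r' ∈ D.D m L y

/-- this holds densely -/
def StepDense (R : Set I) (Q : ℕ → Set (Cond K I)) (D : Task Γ T Y) : Prop :=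
  ∀ i m t, ∃ t', le Γ R t' t ∧ ∃ L, StepAt R Q D t' i m L

theorem StepAt.mono {Q : ℕ → Set (Cond K I)} (hQ : ∀ i j, i ≤ j → Q i ⊆ Q j) {D : Task Γ T Y}
    (hR : IsLowerSet R)
    {t t' : Cond K I} {i i' m L L' : ℕ} (h : StepAt R Q D t i m L) (ht : le Γ R t' t)
    (hi : i' ≤ i) (hL : L ≤ L') : StepAt R Q D t' i' m L' := by
  intro r hr hrt y
  obtain ⟨r', h1, j, h2, h3, h4⟩ := h r (hQ _ _ hi hr) (le_trans' hR hrt ht) y
  exact ⟨r', h1, j, h2.trans hL, h3, D.mono _ _ _ _ hL h4⟩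

theorem walk {Q : ℕ → Set (Cond K I)} (hQ : ∀ i j, i ≤ j → Q i ⊆ Q j) {D : Task Γ T Y}
    (hR : IsLowerSet R) (hT : IsLowerSet T) (hRT : R ⊆ T) {t : Cond K I} {a : ℕ → ℕ} {κ M : ℕ}
    (h : ∀ l, κ ≤ l → l ≤ M → StepAt R Q D t (a l) (a l) (a (l + 1))) {r : Cond K I}
    (hr : r ∈ Q (a κ)) (hrt : le Γ R r t) (y : Y) :
    ∀ N, κ ≤ N → N ≤ M + 1 → ∃ r', le Γ T r' r ∧ r' ∈ Q (a N) ∧
      ∀ l, κ ≤ l → l < N → r' ∈ D.D (a l) (a (l + 1)) y := by
  intro N hN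
  induction N, hN using Nat.le_induction with
  | base => exact fun _ => ⟨r, le_refl' T r, hr, fun l h1 h2 => absurd h2 (not_lt.2 h1)⟩
  | succ N hN ih =>
    intro hM
    obtain ⟨r1, h1, h2, h3⟩ := ih (by omega)
    obtain ⟨r2, h4, j, h5, h6, h7⟩ := h N hN (by omega) r1 h2
      (le_trans' hR (le_mono hRT h1) hrt) y
    refine ⟨r2, le_trans' hT h4 h1, hQ _ _ h5 h6, fun l h8 h9 => ?_⟩
    rcases Nat.lt_succ_iff_lt_or_eq.1 h9 with h10 | rfl
    · exact D.op _ _ _ r1 (h3 l h8 h10) r2 h4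
    · exact h7

theorem dense_fin (hT : IsLowerSet T) (W : ℕ → ℕ → Set (Cond K I))
    (hop : ∀ i v, Op Γ T (W i v)) (hmono : ∀ i v v', v ≤ v' → W i v ⊆ W i v') (p : Cond K I)
    (hd : ∀ i p', le Γ T p' p → ∃ q, le Γ T q p' ∧ ∃ v, q ∈ W i v) (N : ℕ) :
    ∃ q, le Γ T q p ∧ ∃ v, ∀ i < N, q ∈ W i v := by
  induction N with
  | zero => exact ⟨p, le_refl' T p, 0, fun i hi => absurd hi (Nat.not_lt_zero i)⟩
  | succ N ih =>
    obtain ⟨q, hq, v, h⟩ := ih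
    obtain ⟨r, hr, w, hw⟩ := hd N q hq
    refine ⟨r, le_trans' hT hr hq, max v w, fun i hi => ?_⟩
    rcases Nat.lt_succ_iff_lt_or_eq.1 hi with h' | rfl
    · exact hmono _ _ _ (le_max_left v w) (hop _ _ q (h i h') r hr)
    · exact hmono _ _ _ (le_max_right v w) hw

/-- the name of a bound for all pieces and tasks -/
def stepBN {Q : ℕ → Set (Cond K I)} (hQ : ∀ i j, i ≤ j → Q i ⊆ Q j) {D : Task Γ T Y}
    (hR : IsLowerSet R) (h : StepDense R Q D) : BN Γ R where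
  U M v := {t | ∀ i ≤ M, ∀ m ≤ M, StepAt R Q D t i m v}
  op M v p hp q hq i hi m hm := (hp i hi m hm).mono hQ hR hq le_rfl le_rfl
  mono M v v' hv p hp i hi m hm := (hp i hi m hm).mono hQ hR (le_refl' R p) le_rfl hv
  dense M p := by
    have h1 : ∀ i p, ∃ q, le Γ R q p ∧ ∃ v, q ∈ {t | ∀ m < M + 1, StepAt R Q D t i m v} := by
      intro i p
      exact dense_fin hR (fun m v => {t | StepAt R Q D t i m v})
        (fun m v p hp q hq => StepAt.mono hQ hR hp hq le_rfl le_rfl)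
        (fun m v v' hv p hp => StepAt.mono hQ hR hp (le_refl' R p) le_rfl hv) p
        (fun m p _ => h i m p) (M + 1)
    obtain ⟨q, hq, v, h2⟩ := dense_fin hR (fun i v => {t | ∀ m < M + 1, StepAt R Q D t i m v})
      (fun m v p hp q hq m hm => (hp m hm).mono hQ hR hq le_rfl le_rfl)
      (fun m v v' hv p hp m hm => (hp m hm).mono hQ hR (le_refl' R p) le_rfl hv) p
      (fun i p _ => h1 i p) (M + 1)
    exact ⟨q, hq, v, fun i hi m hm => h2 i (Nat.lt_succ_of_le hi) m (Nat.lt_succ_of_le hm)⟩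

theorem run_of_steps (hS : IsLowerSet S) (hT : IsLowerSet T) (D : Task Γ T Y) (R : ℕ → Set I)
    (hR : ∀ n, IsLowerSet (R n)) (hSR : ∀ n, S ⊆ R n) (hRT : ∀ n, R n ⊆ T)
    (Q : ℕ → ℕ → Set (Cond K I)) (hQ : ∀ n i j, i ≤ j → Q n i ⊆ Q n j)
    (hQc : ∀ n i r r', (∀ j ∈ T, j ∉ R n → r j = r' j) → r ∈ Q n i → r' ∈ Q n i)
    (hcov : ∀ p, ∃ n i, p ∈ Q n i) (hstep : ∀ n, StepDense (R n) (Q n) D)
    (hDA : ∀ n, DA Γ S (R n)) : Run S D := by
  have h1 : ∀ n, Run S (stepBN (hQ n) (hR n) (hstep n)).task := fun n => hDA n _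
  choose A hA hrun using h1
  have h2 : ∀ l a p, ∃ q, le Γ S q p ∧ ∃ a',
      q ∈ {t : Cond K I | a < a' ∧ ∀ n ≤ l, ∃ w ≤ a', t ∈ (A n).val (a + 1) w} := by
    intro l a p
    obtain ⟨q, hq, v, hv⟩ := dense_fin hS
      (fun n v => {t : Cond K I | ∃ w ≤ v, t ∈ (A n).val (a + 1) w})
      (fun n v => by
        rintro p ⟨w, hw, hp⟩ q hq
        exact ⟨w, hw, (A n).op _ _ p hp q hq⟩)
      (fun n v v' hv => by
        rintro p ⟨w, hw, hp⟩
        exact ⟨w, hw.trans hv, hp⟩) p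
      (fun n p _ => by
        obtain ⟨q, hq, w, hw⟩ := (A n).dense (a + 1) p
        exact ⟨q, hq, w, w, le_rfl, hw⟩) (l + 1)
    refine ⟨q, hq, max (a + 1) v, (Nat.lt_succ_self a).trans_le (le_max_left _ _), fun n hn => ?_⟩
    obtain ⟨w, hw, hqw⟩ := hv n (Nat.lt_succ_of_le hn)
    exact ⟨w, hw.trans (le_max_right _ _), hqw⟩
  obtain ⟨B, -, hB⟩ := exists_rec hS 0
    (fun l a a' => {t : Cond K I | a < a' ∧ ∀ n ≤ l, ∃ w ≤ a', t ∈ (A n).val (a + 1) w})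
    (by
      rintro l a a' p ⟨h3, h4⟩ q hq
      refine ⟨h3, fun n hn => ?_⟩
      obtain ⟨w, hw, hpw⟩ := h4 n hn
      exact ⟨w, hw, (A n).op _ _ p hpw q hq⟩) h2
  have hBi : Incr B := fun n p a a' ha ha' => (hB n p a a' ha ha').1
  refine ⟨B, hBi, fun g y p n0 => ?_⟩
  obtain ⟨n, i, hp⟩ := hcov p
  obtain ⟨κ, hκ, t, ht, M', hM', hl⟩ := hrun n (B.comp g hS) () p (max n0 (max n i))
  have hκ1 : n0 ≤ κ := (le_max_left _ _).trans hκ
  have hκ2 : n ≤ κ := (le_max_left _ _).trans ((le_max_right _ _).trans hκ)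
  have hκ3 : i ≤ κ := (le_max_right _ _).trans ((le_max_right _ _).trans hκ)
  obtain ⟨M, hM, hBM⟩ := hM'
  -- decide the values of `B`
  obtain ⟨t', ht', hd⟩ := B.decide hS (hR n) (hSR n) (M + 2) t
  choose! a ha using hd
  have hgt : t' ∈ g.val κ M := g.op _ _ t hM t' (le_mono (hSR n) ht')
  have hBt : t' ∈ B.val M M' := B.op _ _ t hBM t' (le_mono (hSR n) ht')
  have hage : ∀ l ≤ M + 1, l ≤ a l := fun l hl => hBi.ge hS (ha l (by omega))
  have hstep' : ∀ l, κ ≤ l → l ≤ M → StepAt (R n) (Q n) D t' (a l) (a l) (a (l + 1)) := by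
    intro l h3 h4
    have h5 : a l ≤ M' := hBi.le_of_le hS h4 (ha l (by omega)) hBt
    have h6 : κ ≤ a l := h3.trans (hage l (by omega))
    obtain ⟨b, b', h7, h8, h9⟩ := hl (a l) h6 h5
    have h10 : a l ≤ b := (hA n).ge hS h7
    obtain ⟨-, h11⟩ := hB l t' (a l) (a (l + 1)) (ha l (by omega)) (ha (l + 1) (by omega))
    obtain ⟨w, hw, h12⟩ := h11 n (hκ2.trans h3)
    have h13 : w = b' := (A n).uniq _ t' w b' h12
      ((A n).op _ _ t h8 t' (le_mono (hSR n) ht'))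
    have h14 : StepAt (R n) (Q n) D t (a l) (a l) b' := h9 (a l) h10 (a l) h10
    exact h14.mono (hQ n) (hR n) ht' le_rfl (h13 ▸ hw)
  by_cases hκM : κ ≤ M
  · have hr : mix (R n) t' p ∈ Q n (a κ) := by
      refine hQ n i _ (hκ3.trans (hage κ (by omega))) (hQc n i p _ (fun j _ hj => ?_) hp)
      rw [mix_notMem _ _ hj]
    have hrt : le Γ (R n) (mix (R n) t' p) t' := le_of_eq (hR n) fun i hi => mix_mem _ _ hi
    obtain ⟨r', h3, -, h4⟩ := walk (hQ n) (hR n) hT (hRT n) hstep' hr hrt y (M + 1)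
      (by omega) le_rfl
    have h5 : le Γ S r' t' := by
      refine le_trans' hS (le_mono ((hSR n).trans (hRT n)) h3) ?_
      exact le_mono (hSR n) hrt
    refine ⟨κ, hκ1, r', le_trans' hT h3 (mix_le (hR n) (le_trans' (hR n) ht' ht)), M,
      g.op _ _ t' hgt r' h5, fun l h6 h7 => ⟨a l, a (l + 1), ?_, ?_, ?_⟩⟩
    · exact B.op _ _ t' (ha l (by omega)) r' h5
    · exact B.op _ _ t' (ha (l + 1) (by omega)) r' h5
    · exact h4 l h6 (by omega)
  · refine ⟨κ, hκ1, mix (R n) t' p, mix_le (hR n) (le_trans' (hR n) ht' ht), M, ?_,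
      fun l h6 h7 => absurd (h6.trans h7) hκM⟩
    exact g.op _ _ t' hgt _ (le_of_eq hS fun i hi => mix_mem _ _ (hSR n hi))

end Pool.Agent.W684.BMA
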